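import Pool.Agent.H98.MR.RAN
import Pool.Agent.H4.AR.Roth

/-! # [H98 MR RFA] Separated scales, relaxed curves

Copy `far_m` (`Pool/Agent/H97/NW/FAR.lean`, namespace `Pool.Agent.H98.MR`, open `Pool.Agent.H97.NW`) and change: `τ` from `aux_norm_r`; `cr` from `H4AR.roth m (τ / (4 n^m))`;
`c1, K0` from `aux_norm_r` with `δ = cr n^m / 2`; `c = max c1 ⌈8 / cr⌉₊`; `ell_v ≥ c log 2` from `Rc.ell_ge`. `choose ρ hρ using hP`. `Y = K0 ell_0`. The rest is
unchanged. -/

namespace Pool.Agent.H98.MR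

open Finset Polynomial Pool.Agent.H72.ES Pool.Agent.H87.SA2 Pool.Agent.H8.AW Pool.Agent.H52.AC
  Pool.Agent.H97.NW H4AR

theorem far_r (m n κ : ℕ) (hm : 1 ≤ m) (hn : 4 ≤ n) (γ : ℝ) (hγ : 0 < γ) : ∃ (R : ℝ) (c : ℕ),
    1 ≤ R ∧ ∀ (P : Fin m → Ptd n) (PP : Finset (∀ v, Fin (P v).d)), Stb P PP →
      (fun v => (P v).i) ∈ PP →
      (1 + γ) * ((m : ℝ) ^ m * PP.card) ≤ (m.factorial : ℝ) * ∏ v, ((P v).d : ℝ) →
      (∀ v, Rlx κ c (P v)) → ¬ ∀ i j : Fin m, i < j → R * (P j).ell ≤ (P i).ell := by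
  obtain ⟨τ, hτ, haux⟩ := aux_norm_r m n κ hm hn γ hγ
  set S : ℝ := (n : ℝ) ^ m with hS
  have hnR : (4 : ℝ) ≤ n := by exact_mod_cast hn
  have hS1 : 1 ≤ S := one_le_pow₀ (by linarith)
  have hS0 : 0 < S := by linarith
  obtain ⟨cr, hcr0, hcr1, hroth⟩ := H4AR.roth m (τ / (4 * S)) (by positivity)
  obtain ⟨c1, K0, hc1, hK0, hN⟩ := haux (cr * S / 2) (by positivity)
  refine ⟨max 1 (2 / cr), max c1 (⌈8 / cr⌉₊), le_max_left _ _, ?_⟩
  intro P PP hStb hnear hcard hRlx hsep
  choose ρ hρ using hRlx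
  set c : ℕ := max c1 (⌈8 / cr⌉₊) with hc
  have hcc : 8 / cr ≤ c := (Nat.le_ceil _).trans (by exact_mod_cast le_max_right _ _)
  have hc8 : 8 ≤ cr * c := by
    rw [div_le_iff₀ hcr0] at hcc
    linarith
  have hc0 : (0 : ℝ) < c := by
    by_contra hcon
    push Not at hcon
    nlinarith
  have hρ1 : ∀ v, Rc κ c1 (P v) (ρ v) := fun v => (hρ v).mono (le_max_left _ _)
  have hl2 : 1 / 2 ≤ Real.log 2 := by
    have := Real.log_two_gt_d9
    linarith
  have hl20 : 0 < Real.log 2 := by linarith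
  have hell : ∀ v, (c : ℝ) * Real.log 2 ≤ (P v).ell := fun v => ((hρ v).ell_ge).2
  have hell0 : ∀ v, 0 < (P v).ell := fun v => lt_of_lt_of_le (by positivity) (hell v)
  set v0 : Fin m := ⟨0, hm⟩ with hv0
  have hmax : ∀ v, (P v).ell ≤ (P v0).ell := by
    intro v
    rcases eq_or_ne v v0 with h | h
    · rw [h]
    · have h1 : v0 < v := by
        rw [Fin.lt_def]
        have h2 : v.val ≠ v0.val := fun h3 => h (Fin.ext h3)
        have h4 : v0.val = 0 := rfl
        omega
      have h2 := hsep v0 v h1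
      have h3 : (P v).ell ≤ max 1 (2 / cr) * (P v).ell :=
        le_mul_of_one_le_left (hell0 v).le (le_max_left _ _)
      exact h3.trans h2
  set Y : ℝ := K0 * (P v0).ell with hY
  have hY0 : 0 < Y := mul_pos (by linarith) (hell0 v0)
  have hYv : ∀ v, K0 * (P v).ell ≤ Y := fun v => mul_le_mul_of_nonneg_left (hmax v) (by linarith)
  have hYv1 : ∀ v, (P v).ell ≤ Y := fun v =>
    (le_mul_of_one_le_left (hell0 v).le hK0).trans (hYv v)
  obtain ⟨N, hN0, hdeg, hlog, hvan⟩ := hN P PP hStb hnear hcard ρ hρ1 Y hYv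
  set a : Fin m → ℝ := fun v => 2 * S * Y / (P v).ell with ha
  have ha2 : ∀ v, 2 ≤ a v := by
    intro v
    simp only [ha]
    rw [le_div_iff₀ (hell0 v)]
    have := hYv1 v
    nlinarith
  have ha0 : ∀ v, 0 < a v := fun v => by linarith [ha2 v]
  set d : Fin m → ℕ := fun v => ⌊a v⌋₊ with hd
  have hd1 : ∀ v, (d v : ℝ) ≤ a v := fun v => Nat.floor_le (ha0 v).le
  have hd2 : ∀ v, a v / 2 ≤ d v := by
    intro v
    have h1 := Nat.lt_floor_add_one (a v)
    have h2 := ha2 v
    have h3 : a v < (d v : ℝ) + 1 := h1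
    linarith
  have hd3 : ∀ v, 1 ≤ d v := by
    intro v
    have h1 := hd2 v
    have h2 := ha2 v
    exact_mod_cast (by linarith : (1 : ℝ) ≤ d v)
  set D : ℝ := 2 * S * Y / (c * Real.log 2) with hD
  have haD : ∀ v, a v ≤ D := fun v =>
    div_le_div_of_nonneg_left (by positivity) (by positivity) (hell v)
  have hD1 : 1 ≤ D := by
    have h1 := haD v0
    have h2 := ha2 v0
    linarith
  -- heights
  have hht : ∀ j, Real.log (ht (((P j).x : ℤ) : ℚ)) = (P j).ell := by
    intro j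
    have hx0 : (P j).x ≠ 0 := by
      intro h0
      have h1 := (hρ j).x1
      rw [h0, Int.cast_zero, abs_zero] at h1
      linarith
    unfold Ptd.ell ht
    rw [Rat.num_intCast, Rat.den_intCast]
    congr 1
    apply max_eq_left
    rw [Nat.cast_one]
    have h1 : 1 ≤ |(P j).x| := Int.one_le_abs hx0
    exact_mod_cast h1
  obtain ⟨e, he1, he2⟩ := hroth d (fun j => (((P j).x : ℤ) : ℚ)) N D hD1 hd3
    (fun j => (hd1 j).trans (haD j))
    (fun i j hij => by
      have h1 := hsep i j hij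
      have h2 : a i ≤ cr / 2 * a j := by
        simp only [ha]
        rw [div_le_iff₀ (hell0 i)]
        have h3 : 2 / cr * (P j).ell ≤ (P i).ell :=
          (mul_le_mul_of_nonneg_right (le_max_right _ _) (hell0 j).le).trans h1
        have h4 : cr / 2 * (2 * S * Y / (P j).ell) * (2 / cr * (P j).ell) = 2 * S * Y := by
          have := (hell0 j).ne'
          field_simp
        have h5 : 0 ≤ cr / 2 * (2 * S * Y / (P j).ell) := by
          have := hell0 j
          positivity
        calc 2 * S * Y = cr / 2 * (2 * S * Y / (P j).ell) * (2 / cr * (P j).ell) := h4.symm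
          _ ≤ cr / 2 * (2 * S * Y / (P j).ell) * (P i).ell := mul_le_mul_of_nonneg_left h3 h5
      have h6 := hd1 i
      have h7 := mul_le_mul_of_nonneg_left (hd2 j) hcr0.le
      linarith)
    hN0
    (fun j => by
      apply Nat.le_floor
      simp only [ha]
      rw [le_div_iff₀ (hell0 j)]
      exact hdeg j)
    (fun j => by
      rw [hht j]
      have h1 : S * Y ≤ (d j : ℝ) * (P j).ell := by
        have h2 := mul_le_mul_of_nonneg_right (hd2 j) (hell0 j).le
        have h3 : a j / 2 * (P j).ell = S * Y := by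
          simp only [ha]
          have := (hell0 j).ne'
          field_simp
        rwa [h3] at h2
      have h4 := mul_le_mul_of_nonneg_left h1 hcr0.le
      have h5 : D ≤ cr * S / 2 * Y := by
        rw [hD, div_le_iff₀ (by positivity)]
        have h6 : 4 ≤ cr * (c * Real.log 2) := by nlinarith
        have h7 : 0 ≤ S * Y := by positivity
        nlinarith
      linarith)
  -- contradiction
  have he3 : (sh (fun v => (P v).x) N).coeff e ≠ 0 := by
    intro h0
    apply he2
    have h1 := sh_map (Int.castRingHom ℚ) (fun v => (P v).x) N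
    unfold toQ
    have h2 : (fun j => (((P j).x : ℤ) : ℚ)) = fun j => (Int.castRingHom ℚ) ((P j).x) := by
      funext j
      simp
    rw [h2, h1, MvPolynomial.coeff_map, h0, map_zero]
  apply he3
  apply hvan e
  have h1 : ∀ v, (P v).ell * (e v : ℝ) ≤ 2 * S * Y * ((e v : ℝ) / (d v : ℝ)) := by
    intro v
    have hdv : (0 : ℝ) < d v := by exact_mod_cast hd3 v
    have h2 : (P v).ell * (d v : ℝ) ≤ 2 * S * Y := by
      have h3 := hd1 v
      simp only [ha] at h3
      rw [le_div_iff₀ (hell0 v)] at h3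
      linarith
    rw [mul_div_assoc', le_div_iff₀ hdv]
    have h4 : (0 : ℝ) ≤ e v := Nat.cast_nonneg _
    nlinarith
  calc ∑ v, (P v).ell * (e v : ℝ) ≤ ∑ v, 2 * S * Y * ((e v : ℝ) / (d v : ℝ)) :=
        Finset.sum_le_sum fun v _ => h1 v
    _ = 2 * S * Y * wt d e := by rw [← Finset.mul_sum]; rfl
    _ ≤ 2 * S * Y * (τ / (4 * S)) := mul_le_mul_of_nonneg_left he1 (by positivity)
    _ = τ * Y / 2 := by field_simp; ring
    _ < τ * Y := by
        have : 0 < τ * Y := mul_pos hτ hY0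
        linarith

end Pool.Agent.H98.MR
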