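import Pool.Agent.H98.MR.RBA
import Pool.Agent.H97.NW.PTF

/-! # [H98 MR RTH] Points above the threshold are relaxed points

`ρ = b²` (as a real number): `2 ≤ b ≤ b²`; `ρ^c = b^(2c) ≤ b^(cA n + 2c) ≤ |x|`; `q ≤ b ≤ b²`; `‖coeff k‖ ≤ R^(k+1) ≤ b^(k+1) = b b^k ≤ |x| (b²)^k`
(`b ≤ b^(cA n + 2 c) ≤ |x|`, `1 ≤ cA n`), `b ≤ |x|`, and `|x| ≤ |x|^κ` as `1 ≤ κ`; `evy ≠ 0`: `P.facts hn` (with `P.thr_mono`). -/

namespace Pool.Agent.H98.MR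

open Finset Polynomial Pool.Agent.H72.ES Pool.Agent.H87.SA2 Pool.Agent.H8.AW Pool.Agent.H52.AC
  Pool.Agent.H97.NW

theorem rlx_of_thr {n κ c : ℕ} (hn : 4 ≤ n) (hκ : 1 ≤ κ) (P : Ptd n) (h : P.Thr (cA n + 2 * c)) : Rlx κ c P := by
  have hb2 : (2 : ℝ) ≤ P.b := by exact_mod_cast P.C.b2
  have hb1 : (1 : ℝ) ≤ P.b := by linarith
  have hx : (P.b : ℝ) ^ (cA n + 2 * c) ≤ |(P.x : ℝ)| := h
  have hcA : 1 ≤ cA n := by
    have h1 : 0 < n.factorial := Nat.factorial_pos n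
    have h2 : 0 < n := by omega
    unfold cA
    exact Nat.succ_le_of_lt (by positivity)
  have hbx : (P.b : ℝ) ≤ |(P.x : ℝ)| := (le_self_pow₀ hb1 (by omega)).trans hx
  have hx1 : 1 ≤ |(P.x : ℝ)| := hb1.trans hbx
  have hxκ : |(P.x : ℝ)| ≤ |(P.x : ℝ)| ^ κ := le_self_pow₀ hx1 (by omega)
  have hR2 := P.C.pd.R_ge
  refine ⟨(P.b : ℝ) ^ 2, ?_, ?_, ?_, ?_, ?_, ?_⟩
  · nlinarith
  · rw [← pow_mul]
    exact (pow_le_pow_right₀ hb1 (by omega)).trans hx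
  · have h1 : (P.C.pd.q : ℝ) ≤ P.b := by exact_mod_cast P.C.q_le
    nlinarith
  · intro i k
    calc ‖PowerSeries.coeff k (P.C.pd.x i)‖ ≤ P.C.pd.R ^ (k + 1) := P.C.pd.growth i k
      _ ≤ (P.b : ℝ) ^ (k + 1) := pow_le_pow_left₀ (by linarith) P.C.R_le _
      _ = (P.b : ℝ) * (P.b : ℝ) ^ k := by rw [pow_succ']
      _ ≤ |(P.x : ℝ)| ^ κ * ((P.b : ℝ) ^ 2) ^ k := by
          have h2 : (P.b : ℝ) ≤ (P.b : ℝ) ^ 2 := by nlinarith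
          have h3 : (P.b : ℝ) ^ k ≤ ((P.b : ℝ) ^ 2) ^ k :=
            pow_le_pow_left₀ (by linarith) h2 k
          exact mul_le_mul (hbx.trans hxκ) h3 (by positivity) (by positivity)
  · exact hbx.trans hxκ
  · exact (P.facts hn (P.thr_mono (by omega) h)).2.1

end Pool.Agent.H98.MR
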