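import Pool.Agent.H97.NW.Defs
import Pool.Agent.H52.AC.PTF
import Pool.Agent.H52.AC.UB

/-!
# MP_821da1_nt, THEOREM U: the relaxed machine -- definitions (helper98)

The machine `far_m` of `Pool/Agent/H97/NW` for pointed curves whose constants `q`, `ρ` are small (`ρ^c ≤ |x|`), but whose heights
`b` and `U = |x|^κ` are only bounded by a fixed power of the integer point.
`Rc κ c P ρ`: all coefficients of the expansions are at most `|x|^κ ρ^k`, `q ≤ ρ`, `ρ^c ≤ |x|`, `b ≤ |x|^κ`, and the integer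
point is not singular in the direction of `y`. `pd.R` is never used.
`Rlx κ c P`: there is such a `ρ`. `cR n`: the basic threshold. `Ev κ n`: `|F_y| ≤ |x|^(Ev κ n)`.
-/

namespace Pool.Agent.H98.MR

open Finset Polynomial Pool.Agent.H72.ES Pool.Agent.H87.SA2 Pool.Agent.H8.AW Pool.Agent.H52.AC
  Pool.Agent.H97.NW

/-- relaxed bounds for a pointed curve -/
structure Rc {n : ℕ} (κ c : ℕ) (P : Ptd n) (ρ : ℝ) : Prop where
  ρ2 : 2 ≤ ρ
  thr : ρ ^ c ≤ |(P.x : ℝ)|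
  q_le : (P.C.pd.q : ℝ) ≤ ρ
  gr : ∀ i k, ‖PowerSeries.coeff k (P.C.pd.x i)‖ ≤ |(P.x : ℝ)| ^ κ * ρ ^ k
  b_le : (P.b : ℝ) ≤ |(P.x : ℝ)| ^ κ
  evy0 : evy P.d P.F P.x P.y ≠ 0

/-- the pointed curve is relaxed -/
def Rlx {n : ℕ} (κ c : ℕ) (P : Ptd n) : Prop := ∃ ρ : ℝ, Rc κ c P ρ

/-- the basic threshold -/
def cR (n : ℕ) : ℕ := 4 * n + 2 * n.factorial + 4

/-- the exponent of the derivative -/
def Ev (κ n : ℕ) : ℕ := κ * (n + 1) + n

end Pool.Agent.H98.MR
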