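import Pool.Agent.H98.MR.RBA
import Pool.Agent.H52.AC.EVH

/-! # [H98 MR RVA] The value of the function at points of the branches, relaxed curves

Copy `Pool/Agent/H97/NW/VAL.lean` (namespace `Pool.Agent.H98.MR`, open `Pool.Agent.H97.NW`) and change: `hg` is `(hP v).gr (P v).i` (`C = |x|^κ`, `R = ρ v`), `hR0 : 0 ≤ ρ v`
from `(hP v).ρ2`. -/

namespace Pool.Agent.H98.MR

open Finset Polynomial Pool.Agent.H72.ES Pool.Agent.H87.SA2 Pool.Agent.H8.AW Pool.Agent.H52.AC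
  Pool.Agent.H97.NW

variable {m n κ c : ℕ}

private theorem val_evz {R C : ℝ} (hR : 0 ≤ R) {T : ℂ} (hT : R * ‖T‖ < 1) {w : PowerSeries ℂ}
    (hw : ∀ m, ‖PowerSeries.coeff m w‖ ≤ C * R ^ m) (q e D a b : ℕ) :
    evz T (uu q e w D a b) = (((q : ℂ) * T) ^ e) ^ (D - a - b) * evz T w ^ b := by
  have hr : 0 ≤ ‖T‖ := norm_nonneg T
  have hgw : Gr ‖T‖ w := gr_of_le hR hr hT hw
  obtain ⟨w', hw'⟩ : ∃ w' : cvz ‖T‖ hr, w'.1 = w := ⟨⟨w, hgw⟩, rfl⟩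
  obtain ⟨c', hc'⟩ : ∃ c' : cvz ‖T‖ hr, c'.1 = PowerSeries.C (q : ℂ) := ⟨⟨_, gr_C _ _⟩, rfl⟩
  obtain ⟨x', hx'⟩ : ∃ x' : cvz ‖T‖ hr, x'.1 = PowerSeries.X := ⟨⟨_, gr_X _⟩, rfl⟩
  have h1 : uu q e w D a b = (((c' * x') ^ e) ^ (D - a - b) * w' ^ b : cvz ‖T‖ hr).1 := by
    unfold uu
    rw [← hw', ← hc', ← hx']
    rfl
  rw [h1, ← evH_apply ‖T‖ hr T le_rfl, map_mul, map_pow, map_pow, map_mul, map_pow, evH_apply,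
    evH_apply, evH_apply, hc', hx', hw', evz_C, evz_X]

theorem val_r (P : Fin m → Ptd n) (ρ : Fin m → ℝ) (hP : ∀ v, Rc κ c (P v) (ρ v)) (D N : Fin m → ℕ)
    (hDN : ∀ v, N v + (P v).d ≤ D v + 1) (A : Mo P N → ℤ) (T ξ : Fin m → ℂ)
    (hT : ∀ v, ((((P v).C.pd.q : ℕ) : ℂ) * T v) ^ (P v).C.pd.e * ξ v = 1)
    (hR : ∀ v, ρ v * ‖T v‖ < 1) :
    ∑ μ : Mo P N, (A μ : ℂ) * ∏ v, (ξ v ^ ((μ v).1 : ℕ) *
        (ξ v * evz (T v) ((P v).C.pd.x (P v).i)) ^ ((μ v).2 : ℕ)) =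
      (∏ v, ξ v ^ D v) * ∑ μ : Mo P N, (A μ : ℂ) * ∏ v, evz (T v)
        (uu (P v).C.pd.q (P v).C.pd.e ((P v).C.pd.x (P v).i) (D v) (μ v).1 (μ v).2) := by
  rw [Finset.mul_sum]
  refine Finset.sum_congr rfl fun μ _ => ?_
  rw [mul_left_comm, ← Finset.prod_mul_distrib]
  congr 1
  refine Finset.prod_congr rfl fun v _ => ?_
  have hR0 : 0 ≤ ρ v := by
    have := (hP v).ρ2
    linarith
  have hg := (hP v).gr (P v).i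
  rw [val_evz hR0 (hR v) hg]
  obtain ⟨t, ht⟩ : ∃ t : ℂ, t = ((((P v).C.pd.q : ℕ) : ℂ) * T v) ^ (P v).C.pd.e := ⟨_, rfl⟩
  have ht1 := hT v
  rw [← ht] at ht1 ⊢
  have ha := (μ v).1.2
  have hb := (μ v).2.2
  have hD := hDN v
  obtain ⟨k, hk⟩ : ∃ k, D v = k + (((μ v).1 : ℕ) + ((μ v).2 : ℕ)) :=
    ⟨D v - (((μ v).1 : ℕ) + ((μ v).2 : ℕ)), by omega⟩
  have hk2 : D v - ((μ v).1 : ℕ) - ((μ v).2 : ℕ) = k := by omega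
  have e1 : ξ v ^ k * t ^ k = 1 := by
    rw [← mul_pow, mul_comm (ξ v) t, ht1, one_pow]
  rw [hk2, hk, pow_add, pow_add, mul_pow]
  linear_combination (-(ξ v ^ ((μ v).1 : ℕ) * ξ v ^ ((μ v).2 : ℕ) *
    evz (T v) ((P v).C.pd.x (P v).i) ^ ((μ v).2 : ℕ))) * e1

end Pool.Agent.H98.MR
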