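import Pool.Agent.H98.MR.Defs

/-! # [H98 MR RBA] Basic facts for relaxed pointed curves (coefficients, mono, ell, b)

`coeff_pow_r`: induction on `b` as in `coeff_pow_le` of `Pool/Agent/H52/AC/UB.lean` (copy that file and adapt): `b + 1`:
`w^(b+1) = w^b * w`, `∑_(k + l = m) (2U)^b (2ρ)^k U ρ^l = (2U)^b U ρ^m ∑_(k ≤ m) 2^k ≤ (2U)^b U ρ^m 2^(m+1) = (2U)^(b+1) (2ρ)^m`.
`uu_r`: as `uu_le` there: `uu = C (q^n) * (X^n * w^b)` with `n = e (D-a-b)`; the coefficient of index `m` is `0` for `m < n` and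
`q^n * coeff (m-n) (w^b)` otherwise, at most `q^m (2U)^b (2ρ)^m`.
`Rc.mono`: `ρ ≥ 1`. `Rc.x1`: `1 ≤ ρ^c ≤ |x|`. `Rc.ell_ge`: `c log ρ = log (ρ^c) ≤ log |x|`, `log 2 ≤ log ρ`.
`Rc.log_b`: `log b ≤ log (|x|^κ) = κ ell` (`2 ≤ b` by `P.C.b2`). `Rc.log_U`: `log (2 |x|^κ) = log 2 + κ ell ≤ (κ+1) ell` as `log 2 ≤ c log 2 ≤ ell`
(`1 ≤ c`). `Rc.x2`: `2^c ≤ ρ^c ≤ |x|`. -/

namespace Pool.Agent.H98.MR

open Finset Polynomial Pool.Agent.H72.ES Pool.Agent.H87.SA2 Pool.Agent.H8.AW Pool.Agent.H52.AC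
  Pool.Agent.H97.NW

private theorem rba_geom (m : ℕ) :
    ∑ k ∈ range (m + 1), (2 : ℝ) ^ k ≤ 2 ^ (m + 1) := by
  induction m with
  | zero =>
    rw [sum_range_one]
    norm_num
  | succ m ih =>
    rw [sum_range_succ]
    have h1 : (2 : ℝ) ^ (m + 1 + 1) = 2 ^ (m + 1) + 2 ^ (m + 1) := by ring
    rw [h1]
    linarith

theorem coeff_pow_r {U ρ : ℝ} (hU : 1 ≤ U) (hρ : 1 ≤ ρ) {w : PowerSeries ℂ}
    (hw : ∀ m, ‖PowerSeries.coeff m w‖ ≤ U * ρ ^ m) (b m : ℕ) :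
    ‖PowerSeries.coeff m (w ^ b)‖ ≤ (2 * U) ^ b * (2 * ρ) ^ m := by
  have hU0 : 0 ≤ U := by linarith
  have hρ0 : 0 ≤ ρ := by linarith
  induction b generalizing m with
  | zero =>
    rw [pow_zero, PowerSeries.coeff_one, pow_zero, one_mul]
    have h1 : (1 : ℝ) ≤ (2 * ρ) ^ m := one_le_pow₀ (by linarith)
    split_ifs
    · rw [norm_one]
      exact h1
    · rw [norm_zero]
      linarith
  | succ b ih =>
    rw [pow_succ, PowerSeries.coeff_mul]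
    refine (norm_sum_le _ _).trans ?_
    have h1 : ∀ x ∈ antidiagonal m, ‖PowerSeries.coeff x.1 (w ^ b) * PowerSeries.coeff x.2 w‖ ≤
        (2 * U) ^ b * U * ρ ^ m * (2 : ℝ) ^ x.1 := by
      intro x hx
      have hx' : x.1 + x.2 = m := mem_antidiagonal.1 hx
      rw [norm_mul]
      refine (mul_le_mul (ih x.1) (hw x.2) (norm_nonneg _) (by positivity)).trans (le_of_eq ?_)
      rw [mul_pow 2 ρ, ← hx', pow_add ρ]
      ring
    refine (sum_le_sum h1).trans ?_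
    rw [← mul_sum]
    have h2 := Finset.Nat.sum_antidiagonal_eq_sum_range_succ (fun k _ => (2 : ℝ) ^ k) m
    rw [h2]
    have h4 := rba_geom m
    have h5 : (2 * U) ^ (b + 1) * (2 * ρ) ^ m = (2 * U) ^ b * U * ρ ^ m * 2 ^ (m + 1) := by
      rw [mul_pow 2 ρ, pow_succ (2 * U), pow_succ (2 : ℝ) m]
      ring
    rw [h5]
    exact mul_le_mul_of_nonneg_left h4 (by positivity)

theorem uu_r {q e : ℕ} (hq : 1 ≤ q) {U ρ : ℝ} (hU : 1 ≤ U) (hρ : 1 ≤ ρ) {w : PowerSeries ℂ}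
    (hw : ∀ m, ‖PowerSeries.coeff m w‖ ≤ U * ρ ^ m) (D a b m : ℕ) :
    ‖PowerSeries.coeff m (uu q e w D a b)‖ ≤ (2 * U) ^ b * (2 * q * ρ) ^ m := by
  have hU0 : 0 ≤ U := by linarith
  have hρ0 : 0 ≤ ρ := by linarith
  have hq1 : (1 : ℝ) ≤ q := by exact_mod_cast hq
  obtain ⟨n, hn⟩ : ∃ n, n = e * (D - a - b) := ⟨_, rfl⟩
  have h1 : uu q e w D a b =
      PowerSeries.C ((q : ℂ) ^ n) * (PowerSeries.X ^ n * w ^ b) := by
    unfold uu
    rw [← pow_mul, ← hn, mul_pow, ← map_pow, mul_assoc]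
  rw [h1, PowerSeries.coeff_C_mul, PowerSeries.coeff_X_pow_mul']
  have h2 : (0 : ℝ) ≤ (2 * U) ^ b * (2 * q * ρ) ^ m := by positivity
  split_ifs with h
  · rw [norm_mul, norm_pow, Complex.norm_natCast]
    have h3 := coeff_pow_r hU hρ hw b (m - n)
    calc (q : ℝ) ^ n * ‖PowerSeries.coeff (m - n) (w ^ b)‖ ≤
          (q : ℝ) ^ m * ((2 * U) ^ b * (2 * ρ) ^ m) := by
          refine mul_le_mul ?_ (h3.trans ?_) (norm_nonneg _) (by positivity)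
          · exact pow_le_pow_right₀ hq1 h
          · refine mul_le_mul_of_nonneg_left ?_ (by positivity)
            exact pow_le_pow_right₀ (by linarith) (by omega)
      _ = (2 * U) ^ b * (2 * q * ρ) ^ m := by
          rw [show (2 * (q : ℝ) * ρ) = q * (2 * ρ) by ring, mul_pow (q : ℝ)]
          ring
  · rw [mul_zero, norm_zero]
    exact h2

variable {n κ c : ℕ} {P : Ptd n} {ρ : ℝ}

theorem Rc.mono {c' : ℕ} (h : Rc κ c P ρ) (hc : c' ≤ c) : Rc κ c' P ρ :=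
  ⟨h.ρ2, (pow_le_pow_right₀ (by linarith [h.ρ2]) hc).trans h.thr, h.q_le, h.gr, h.b_le, h.evy0⟩

theorem Rc.x1 (h : Rc κ c P ρ) : 1 ≤ |(P.x : ℝ)| :=
  (one_le_pow₀ (by linarith [h.ρ2])).trans h.thr

theorem Rc.x2 (h : Rc κ c P ρ) : (2 : ℝ) ^ c ≤ |(P.x : ℝ)| :=
  (pow_le_pow_left₀ (by norm_num) h.ρ2 c).trans h.thr

theorem Rc.ell_ge (h : Rc κ c P ρ) : (c : ℝ) * Real.log ρ ≤ P.ell ∧ (c : ℝ) * Real.log 2 ≤ P.ell := by
  have h0 : (0 : ℝ) < ρ := by linarith [h.ρ2]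
  constructor
  · rw [← Real.log_pow]
    exact Real.log_le_log (by positivity) h.thr
  · rw [← Real.log_pow]
    exact Real.log_le_log (by positivity) h.x2

theorem Rc.log_b (h : Rc κ c P ρ) : Real.log P.b ≤ κ * P.ell := by
  have hb : 2 ≤ P.b := P.C.b2
  have hb' : (0 : ℝ) < P.b := by
    have : (2 : ℝ) ≤ P.b := by exact_mod_cast hb
    linarith
  unfold Ptd.ell
  rw [← Real.log_pow]
  exact Real.log_le_log hb' h.b_le

theorem Rc.log_U (h : Rc κ c P ρ) (hc : 1 ≤ c) : Real.log (2 * |(P.x : ℝ)| ^ κ) ≤ (κ + 1) * P.ell := by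
  have h1 := h.x1
  have h2 : Real.log 2 ≤ P.ell := by
    have h3 := h.ell_ge.2
    have h4 : (1 : ℝ) ≤ c := by exact_mod_cast hc
    have h5 : 0 ≤ Real.log 2 := Real.log_nonneg (by norm_num)
    nlinarith
  rw [Real.log_mul (by norm_num) (by positivity), Real.log_pow]
  have h6 : Real.log |(P.x : ℝ)| = P.ell := rfl
  rw [h6]
  linarith

end Pool.Agent.H98.MR
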