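import Pool.Agent.H98.MR.RBA
import Pool.Agent.H52.AC.LOC

/-! # [H98 MR RPF] The facts about a relaxed pointed curve

`split_r`: the proof of `split_at` (`Pool/Agent/H52/AC/SPL.lean`, copy it with its private lemmas) with the growth `U ρ^k` instead of `pd.growth`
(`gr_of_le hρ hr hT (C := U)`).
`Rc.facts`: `4 (2ρ)^e ≤ ρ² ρ^(2e) ≤ ρ^c ≤ |x|` (`2 + 2e ≤ 2 + 2 n! ≤ cR n ≤ c`, `P.C.e_le`, `P.C.dn`, `2 ≤ ρ`). `ρ ‖T‖ ≤ 1/2`: as (1) in `pt_factsB`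
(`Pool/Agent/H97/NW/PTF.lean`) with `ρ` instead of `R`. `x ≠ 0`: `Rc.x1`. The last statement: the proof of `uniq_branch` (`Pool/Agent/H52/AC/FI.lean`, copy it
with the private lemma `FI_double`; `FI_evy_cast` has to be copied too if private) with `split_r` instead of `split_at`, `h.evy0`.
`Rc.kap`: `‖evz T (x i)‖ ≤ 2 |x|^κ` (`evz_le` with `C = |x|^κ`), `P.hy`: `|y| ≤ (2 |x|^κ) |x|`; `evy_size` (`Pool/Agent/H52/AC/KBD.lean`) with `c = 2 |x|^κ`: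
`|F_y| ≤ (d+1)² d b (2 |x|^κ)^d |x|^(d-1)`, `(d+1)² d ≤ 2^(3d)`, `2^(4d) ≤ 2^(4n) ≤ |x|` (`Rc.x2`, `4 n ≤ c`), `b ≤ |x|^κ`:
`≤ 2^(4d) |x|^(κ + κ d + d - 1) ≤ |x|^(κ(n+1) + n) = |x|^(Ev κ n)` (`1 ≤ |x|`, `d ≤ n`). `kap = F_y²`. -/

namespace Pool.Agent.H98.MR

open Finset Polynomial Pool.Agent.H72.ES Pool.Agent.H87.SA2 Pool.Agent.H8.AW Pool.Agent.H52.AC
  Pool.Agent.H97.NW

private theorem rpf_comp {A B : Type*} [CommRing A] [CommRing B] (φ : A →+* B) (t : A) :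
    φ.comp (eval₂RingHom (Int.castRingHom A) t) = eval₂RingHom (Int.castRingHom B) (φ t) := by
  refine Polynomial.ringHom_ext' ?_ ?_
  · exact RingHom.ext_int _ _
  · rw [RingHom.comp_apply, coe_eval₂RingHom, coe_eval₂RingHom, eval₂_X, eval₂_X]

private theorem rpf_mapsplit {f : ℤ[X][X]} {d : ℕ} {A B : Type*} [CommRing A] [CommRing B]
    (φ : A →+* B) (t : A) (x : Fin d → A)
    (hs : f.map (eval₂RingHom (Int.castRingHom A) t) = ∏ i, (X - C (x i))) :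
    f.map (eval₂RingHom (Int.castRingHom B) (φ t)) = ∏ i, (X - C (φ (x i))) := by
  have h1 := congrArg (Polynomial.map φ) hs
  rw [Polynomial.map_map, rpf_comp, Polynomial.map_prod] at h1
  rw [h1]
  refine prod_congr rfl fun i _ => ?_
  rw [Polynomial.map_sub, Polynomial.map_X, Polynomial.map_C]

theorem split_r {f : ℤ[X][X]} {d : ℕ} (pd : PData f d) {U ρ : ℝ} (hρ : 0 ≤ ρ)
    (hg : ∀ i k, ‖PowerSeries.coeff k (pd.x i)‖ ≤ U * ρ ^ k) {T : ℂ} (hT : ρ * ‖T‖ < 1) :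
    f.map (eval₂RingHom (Int.castRingHom ℂ) (((pd.q : ℂ) * T) ^ pd.e)) =
      ∏ i, (X - C (evz T (pd.x i))) := by
  have hr : 0 ≤ ‖T‖ := norm_nonneg T
  let S : cvz ‖T‖ hr := ⟨PowerSeries.X, gr_X _⟩
  let c : cvz ‖T‖ hr := ⟨PowerSeries.C (pd.q : ℂ), gr_C _ _⟩
  let y : Fin d → cvz ‖T‖ hr := fun i => ⟨pd.x i, gr_of_le hρ hr hT (C := U) fun m => hg i m⟩
  have hinj : Function.Injective (cvz ‖T‖ hr).subtype := Subtype.val_injective
  have h1 : f.map (eval₂RingHom (Int.castRingHom (cvz ‖T‖ hr)) ((c * S) ^ pd.e)) =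
      ∏ i, (X - C (y i)) := by
    apply Polynomial.map_injective _ hinj
    rw [Polynomial.map_map, rpf_comp, Polynomial.map_prod]
    refine Eq.trans ?_ (pd.split.trans ?_)
    · unfold tq
      congr 2
    · refine prod_congr rfl fun i _ => ?_
      rw [Polynomial.map_sub, Polynomial.map_X, Polynomial.map_C]
      rfl
  have h2 := rpf_mapsplit (evH ‖T‖ hr T le_rfl) _ _ h1
  have hS : evH ‖T‖ hr T le_rfl S = T := evz_X T
  have hc : evH ‖T‖ hr T le_rfl c = (pd.q : ℂ) := evz_C T _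
  rw [map_pow, map_mul, hS, hc] at h2
  exact h2

private theorem rpf_cast (d : ℕ) (F : ℕ → ℕ → ℤ) (x y : ℤ) :
    ((evy d F x y : ℤ) : ℂ) = evy d (cst ℂ F) (x : ℂ) (y : ℂ) := by
  have h := evy_map (Int.castRingHom ℂ) d F x y
  simp only [eq_intCast] at h
  exact h

private theorem rpf_double {d : ℕ} (z : Fin d → ℂ) {i j : Fin d} (hij : j ≠ i) (h : z j = z i) :
    (derivative (∏ k, (X - C (z k)))).eval (z i) = 0 := by
  classical
  have h1 : ∏ k, (X - C (z k)) = (X - C (z i)) * ((X - C (z j)) *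
      ∏ k ∈ (univ.erase i).erase j, (X - C (z k))) := by
    rw [mul_prod_erase (univ.erase i) (fun k => X - C (z k)) (mem_erase.2 ⟨hij, mem_univ j⟩),
      mul_prod_erase univ (fun k => X - C (z k)) (mem_univ i)]
  rw [h1, derivative_mul, derivative_mul, h]
  simp

private theorem rpf_uniq {d : ℕ} {F : ℕ → ℕ → ℤ} (pd : PData (fI d F) d) {x y : ℤ}
    (hκ : evy d F x y ≠ 0) {U ρ : ℝ} (hρ : 0 ≤ ρ)
    (hg : ∀ i k, ‖PowerSeries.coeff k (pd.x i)‖ ≤ U * ρ ^ k) {T : ℂ} (hT : ρ * ‖T‖ < 1)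
    (hTx : ((pd.q : ℂ) * T) ^ pd.e * (x : ℂ) = 1) {i : Fin d}
    (hi : evz T (pd.x i) = (y : ℂ) / (x : ℂ)) :
    ∀ j, evz T (pd.x j) = (y : ℂ) / (x : ℂ) → j = i := by
  intro j hj
  by_contra hne
  set t : ℂ := ((pd.q : ℂ) * T) ^ pd.e with ht
  have hx : (x : ℂ) ≠ 0 := right_ne_zero_of_mul_eq_one hTx
  have hyx : (y : ℂ) / (x : ℂ) = t * y := by
    rw [div_eq_iff hx, mul_right_comm, hTx, one_mul]
  have hsp := split_r pd hρ hg hT
  have h1 := fI_deriv d F (x := (x : ℂ)) (y := (y : ℂ)) (t := t) hTx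
  rw [← derivative_map, hsp, ← hyx, ← hi, rpf_double (fun k => evz T (pd.x k)) hne
    (hj.trans hi.symm), ← rpf_cast] at h1
  have ht0 : t ≠ 0 := left_ne_zero_of_mul_eq_one hTx
  have h2 : ((evy d F x y : ℤ) : ℂ) = 0 := by
    rcases mul_eq_zero.1 h1.symm with h | h
    · exact absurd h (pow_ne_zero _ ht0)
    · exact h
  exact hκ (by exact_mod_cast h2)

variable {n κ c : ℕ} {P : Ptd n} {ρ : ℝ}

theorem Rc.facts (h : Rc κ c P ρ) (hc : cR n ≤ c) :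
    ρ * ‖P.T‖ ≤ 1 / 2 ∧ 4 * (2 * ρ) ^ P.C.pd.e ≤ |(P.x : ℝ)| ∧ P.x ≠ 0 ∧
      ∀ j, evz P.T (P.C.pd.x j) = (P.y : ℂ) / (P.x : ℂ) → j = P.i := by
  have hρ2 := h.ρ2
  have hρ1 : (1 : ℝ) ≤ ρ := by linarith
  have hρ0 : (0 : ℝ) ≤ ρ := by linarith
  have hq1 : (1 : ℝ) ≤ P.C.pd.q := by exact_mod_cast P.C.pd.q_pos
  have he1 := P.C.pd.e_pos
  have hen : P.C.pd.e ≤ n.factorial := P.C.e_le.trans (Nat.factorial_le P.C.dn)
  have hcn : 4 * n + 2 * n.factorial + 4 ≤ c := hc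
  have h4 : 4 * (2 * ρ) ^ P.C.pd.e ≤ |(P.x : ℝ)| := by
    refine le_trans ?_ h.thr
    calc 4 * (2 * ρ) ^ P.C.pd.e ≤ (ρ * ρ) * (ρ * ρ) ^ P.C.pd.e := by
          have h5 : (4 : ℝ) ≤ ρ * ρ := by nlinarith
          gcongr
      _ = ρ ^ (2 + 2 * P.C.pd.e) := by
          rw [pow_add, pow_mul, pow_two]
      _ ≤ ρ ^ c := by
          apply pow_le_pow_right₀ hρ1
          omega
  have hxpos : 0 < |(P.x : ℝ)| := by
    refine lt_of_lt_of_le ?_ h4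
    positivity
  have hx0 : P.x ≠ 0 := by
    intro h0
    rw [h0, Int.cast_zero, abs_zero] at hxpos
    exact lt_irrefl _ hxpos
  have hnorm : ((P.C.pd.q : ℝ) * ‖P.T‖) ^ P.C.pd.e * |(P.x : ℝ)| = 1 := by
    have h5 := congrArg norm P.hT
    rw [norm_mul, norm_pow, norm_mul, norm_one, Complex.norm_natCast, Complex.norm_intCast] at h5
    exact h5
  have h1 : ρ * ‖P.T‖ ≤ 1 / 2 := by
    by_contra hcon
    push Not at hcon
    have h5 : 1 < (2 * ρ * ‖P.T‖) ^ P.C.pd.e := one_lt_pow₀ (by linarith) (by omega)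
    have h6 : (2 * ρ * ‖P.T‖) ^ P.C.pd.e ≤
        (2 * ρ) ^ P.C.pd.e * ((P.C.pd.q : ℝ) * ‖P.T‖) ^ P.C.pd.e := by
      rw [← mul_pow]
      apply pow_le_pow_left₀ (by positivity)
      have h7 : ‖P.T‖ ≤ (P.C.pd.q : ℝ) * ‖P.T‖ := le_mul_of_one_le_left (norm_nonneg _) hq1
      exact mul_le_mul_of_nonneg_left h7 (by positivity)
    have h8 : (2 * ρ) ^ P.C.pd.e * ((P.C.pd.q : ℝ) * ‖P.T‖) ^ P.C.pd.e ≤ 1 := by
      rw [← hnorm, mul_comm]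
      apply mul_le_mul_of_nonneg_left _ (by positivity)
      have : 0 ≤ (2 * ρ) ^ P.C.pd.e := by positivity
      linarith
    linarith
  exact ⟨h1, h4, hx0, rpf_uniq P.C.pd h.evy0 hρ0 h.gr (by linarith) P.hT P.hy⟩

theorem Rc.kap (h : Rc κ c P ρ) (hc : cR n ≤ c) :
    P.kap ≠ 0 ∧ |(P.kap : ℝ)| ≤ |(P.x : ℝ)| ^ (2 * Ev κ n) := by
  obtain ⟨h1, h4, hx0, -⟩ := h.facts hc
  have hρ2 := h.ρ2
  have hρ1 : (1 : ℝ) ≤ ρ := by linarith
  have hρ0 : (0 : ℝ) ≤ ρ := by linarith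
  have hd1 := P.C.d1
  have hdn := P.C.dn
  have hcn : 4 * n + 2 * n.factorial + 4 ≤ c := hc
  set A : ℝ := |(P.x : ℝ)| with hA
  have hA1 : 1 ≤ A := by
    refine le_trans ?_ h4
    have : (1 : ℝ) ≤ (2 * ρ) ^ P.C.pd.e := one_le_pow₀ (by linarith)
    linarith
  have hA0 : 0 < A := by linarith
  have h2 : (2 : ℝ) ^ (4 * P.d) ≤ A := by
    refine le_trans ?_ h.thr
    calc (2 : ℝ) ^ (4 * P.d) ≤ ρ ^ (4 * P.d) := pow_le_pow_left₀ (by norm_num) hρ2 _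
      _ ≤ ρ ^ c := pow_le_pow_right₀ hρ1 (by omega)
  refine ⟨pow_ne_zero _ h.evy0, ?_⟩
  have h5 : ‖evz P.T (P.C.pd.x P.i)‖ ≤ 2 * A ^ κ := evz_le (by positivity) hρ0 h1 (h.gr P.i)
  rw [P.hy, norm_div, Complex.norm_intCast, Complex.norm_intCast, div_le_iff₀ hA0] at h5
  have hAκ : 1 ≤ A ^ κ := one_le_pow₀ hA1
  have h6 := evy_size (n := P.d) (b := P.b) (F := P.F) hd1 P.C.le (c := 2 * A ^ κ) (by linarith) hx0 h5
  have h7 : ((P.d : ℝ) + 1) ^ 2 * P.d ≤ 2 ^ (3 * P.d) := by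
    have h8 : P.d + 1 ≤ 2 ^ P.d := Nat.lt_two_pow_self
    have h9 : (P.d : ℝ) + 1 ≤ 2 ^ P.d := by exact_mod_cast h8
    have h10 : (P.d : ℝ) ≤ 2 ^ P.d := by linarith
    calc ((P.d : ℝ) + 1) ^ 2 * P.d ≤ ((2 : ℝ) ^ P.d) ^ 2 * 2 ^ P.d := by gcongr
      _ = 2 ^ (3 * P.d) := by
          rw [← pow_succ, ← pow_mul]
          congr 1
          ring
  have h8 : |((evy P.d P.F P.x P.y : ℤ) : ℝ)| ≤ A ^ Ev κ n := by
    refine h6.trans ?_
    calc ((P.d : ℝ) + 1) ^ 2 * P.d * P.b * (2 * A ^ κ) ^ P.d * A ^ (P.d - 1)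
        ≤ 2 ^ (3 * P.d) * A ^ κ * (2 * A ^ κ) ^ P.d * A ^ (P.d - 1) := by
          have := h.b_le
          gcongr
      _ = 2 ^ (4 * P.d) * A ^ (κ + κ * P.d + (P.d - 1)) := by
          have e : 4 * P.d = 3 * P.d + P.d := by ring
          rw [mul_pow, e, pow_add, pow_add, pow_add, pow_mul A κ]
          ring
      _ ≤ A * A ^ (κ + κ * P.d + (P.d - 1)) := by gcongr
      _ = A ^ (κ + κ * P.d + P.d) := by
          rw [← pow_succ']
          congr 1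
          omega
      _ ≤ A ^ Ev κ n := by
          apply pow_le_pow_right₀ hA1
          unfold Ev
          calc κ + κ * P.d + P.d ≤ κ + κ * n + n := by gcongr
            _ = κ * (n + 1) + n := by ring
  have h9 : (P.kap : ℝ) = ((evy P.d P.F P.x P.y : ℤ) : ℝ) ^ 2 := by
    unfold Ptd.kap
    push_cast
    ring
  rw [h9, abs_pow, mul_comm 2, pow_mul]
  exact pow_le_pow_left₀ (abs_nonneg _) h8 2

end Pool.Agent.H98.MR
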