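import Pool.Agent.H98.MR.RBA
import Pool.Agent.H97.NW.SIE
import Pool.Agent.H97.NW.CNT
import Pool.Agent.H97.NW.CEL

/-! # [H98 MR RAA] The auxiliary function, relaxed curves

Copy `Pool/Agent/H97/NW/AUXA.lean` (namespace `Pool.Agent.H98.MR`, open `Pool.Agent.H97.NW`) and change the bound: `uu_r` instead of `uu_le` with `U = |x|^κ`
(`1 ≤ |x|`: `Rc.x1`), `ρ v ≥ 2`: `‖coeff k (uu ..)‖ ≤ (2U)^b (2qρ)^k ≤ (2U)^n (2qρ)^(e (K+1))` (`b < d ≤ n`, `1 ≤ 2U`, `k < e (K+1)`). -/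

namespace Pool.Agent.H98.MR

open Finset Polynomial Pool.Agent.H72.ES Pool.Agent.H87.SA2 Pool.Agent.H8.AW Pool.Agent.H52.AC
  Pool.Agent.H97.NW

variable {m n κ c : ℕ}

theorem auxA_r (P : Fin m → Ptd n) (ρ : Fin m → ℝ) (hP : ∀ v, Rc κ c (P v) (ρ v))
    (PP : Finset (∀ v, Fin (P v).d)) (hst : Stb P PP)
    (D N : Fin m → ℕ) (hN : ∀ v, 1 ≤ N v) (ℓ : Fin m → ℝ) (hℓ : ∀ v, 0 < ℓ v) (TT : ℝ)
    (hTT : 0 < TT) (r : ℕ) (hr : 1 ≤ r)
    (hcount : (r + 1) * (PP.card * (cells ℓ TT).card) ≤ r * ∏ v, (N v * (P v).d)) (B : ℝ)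
    (hB : ∀ K ∈ cells ℓ TT, ∏ v, (((P v).C.pd.e : ℝ) *
      ((2 * |((P v).x : ℝ)| ^ κ) ^ n * (2 * (P v).C.pd.q * ρ v) ^ ((P v).C.pd.e * (K v + 1)))) ≤ B) :
    ∃ A : Mo P N → ℤ, A ≠ 0 ∧ (∀ μ, |(A μ : ℝ)| ≤ (4 * ((∏ v, (N v * (P v).d) : ℕ) * B)) ^ r) ∧
      ∀ p ∈ PP, ∀ k : Fin m → ℕ, ∑ v, ℓ v * ((k v / (P v).C.pd.e : ℕ) : ℝ) < TT →
        Bm P D N A p k = 0 := by
  classical
  choose c hc1 hc2 using fun v => exists_cj (P v)
  have hq1 : ∀ v, (1 : ℝ) ≤ (P v).C.pd.q := fun v => by exact_mod_cast (P v).C.pd.q_pos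
  have hR1 : ∀ v, (2 : ℝ) ≤ ρ v := fun v => (hP v).ρ2
  have hU1 : ∀ v, (1 : ℝ) ≤ |((P v).x : ℝ)| ^ κ := fun v => one_le_pow₀ (hP v).x1
  have he1 : ∀ v, (1 : ℝ) ≤ (P v).C.pd.e := fun v => by exact_mod_cast (P v).C.pd.e_pos
  have hX1 : ∀ v, (1 : ℝ) ≤ 2 * (P v).C.pd.q * ρ v := fun v => by
    have h1 := hq1 v
    have h2 := hR1 v
    nlinarith
  -- conjugation
  have hcm : ∀ p ∈ PP, (fun v => c v (p v)) ∈ PP := by
    intro p hp
    refine hst.1 ((starRingEnd ℂ).comp (algebraMap AA ℂ)) p hp _ ?_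
    intro v k a ha
    rw [hc2 v (p v) k, ← ha]
    rfl
  let cj : {p // p ∈ PP} → {p // p ∈ PP} := fun p => ⟨fun v => c v (p.1 v), hcm p.1 p.2⟩
  have hcj : ∀ p, cj (cj p) = p := by
    intro p
    apply Subtype.ext
    funext v
    exact hc1 v _
  let V : {K // K ∈ cells ℓ TT} → {p // p ∈ PP} → Mo P N → ℂ := fun K p μ =>
    ∑ r : (∀ v, Fin (P v).C.pd.e), ∏ v, PowerSeries.coeff ((P v).C.pd.e * K.1 v + (r v : ℕ))
      (uu (P v).C.pd.q (P v).C.pd.e ((P v).C.pd.x (p.1 v)) (D v) (μ v).1 (μ v).2)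
  have hconj : ∀ K p μ, V K (cj p) μ = (starRingEnd ℂ) (V K p μ) := by
    intro K p μ
    simp only [V]
    rw [map_sum]
    refine Finset.sum_congr rfl fun r _ => ?_
    rw [map_prod]
    refine Finset.prod_congr rfl fun v _ => ?_
    exact coeff_uu_conj _ _ (hc2 v (p.1 v)) _ _ _ _
  have hVn : ∀ K p μ, ‖V K p μ‖ ≤ B := by
    intro K p μ
    refine le_trans ?_ (hB K.1 K.2)
    simp only [V]
    refine (norm_sum_le _ _).trans ?_
    have h1 : ∀ r ∈ (Finset.univ : Finset (∀ v, Fin (P v).C.pd.e)),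
        ‖∏ v, PowerSeries.coeff ((P v).C.pd.e * K.1 v + (r v : ℕ))
        (uu (P v).C.pd.q (P v).C.pd.e ((P v).C.pd.x (p.1 v)) (D v) (μ v).1 (μ v).2)‖ ≤
        ∏ v, ((2 * |((P v).x : ℝ)| ^ κ) ^ n *
          (2 * ((P v).C.pd.q : ℝ) * ρ v) ^ ((P v).C.pd.e * (K.1 v + 1))) := by
      intro r _
      rw [norm_prod]
      refine Finset.prod_le_prod (fun v _ => norm_nonneg _) fun v _ => ?_
      refine (uu_r (P v).C.pd.q_pos (hU1 v) (by linarith [hR1 v]) ((hP v).gr (p.1 v)) _ _ _ _).trans ?_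
      have h2 : ((μ v).2 : ℕ) < (P v).d := (μ v).2.2
      have h3 := (P v).C.dn
      have h4 : (r v : ℕ) < (P v).C.pd.e := (r v).2
      have h5 : (P v).C.pd.e * (K.1 v + 1) = (P v).C.pd.e * K.1 v + (P v).C.pd.e := by ring
      have h6 : (1 : ℝ) ≤ 2 * |((P v).x : ℝ)| ^ κ := by linarith [hU1 v]
      have h7 := hX1 v
      exact mul_le_mul (pow_le_pow_right₀ h6 (by omega)) (pow_le_pow_right₀ h7 (by omega))
        (by positivity) (by positivity)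
    refine (Finset.sum_le_sum h1).trans (le_of_eq ?_)
    rw [Finset.sum_const, Finset.card_univ, Fintype.card_pi, nsmul_eq_mul]
    push_cast
    rw [← Finset.prod_mul_distrib]
    refine Finset.prod_congr rfl fun v _ => ?_
    rw [Fintype.card_fin]
  have hcard : Fintype.card (Mo P N) = ∏ v, (N v * (P v).d) := by
    rw [Fintype.card_pi]
    refine Finset.prod_congr rfl fun v _ => ?_
    rw [Fintype.card_prod, Fintype.card_fin, Fintype.card_fin]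
  have hcard0 : 0 < Fintype.card (Mo P N) := by
    rw [hcard]
    refine Finset.prod_pos fun v _ => ?_
    exact Nat.mul_pos (hN v) (P v).C.d1
  have hB1 : 1 ≤ B := by
    have h0 : (fun _ => 0 : Fin m → ℕ) ∈ cells ℓ TT := by
      rw [mem_cells hℓ]
      simpa using hTT
    refine le_trans ?_ (hB _ h0)
    refine Finset.prod_induction _ (fun x : ℝ => 1 ≤ x)
      (fun a b ha hb => one_le_mul_of_one_le_of_one_le ha hb) le_rfl fun v _ => ?_
    have h6 : (1 : ℝ) ≤ 2 * |((P v).x : ℝ)| ^ κ := by linarith [hU1 v]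
    exact one_le_mul_of_one_le_of_one_le (he1 v)
      (one_le_mul_of_one_le_of_one_le (one_le_pow₀ h6) (one_le_pow₀ (hX1 v)))
  have hM1 : 1 ≤ ((∏ v, (N v * (P v).d) : ℕ) : ℝ) * B := by
    apply one_le_mul_of_one_le_of_one_le _ hB1
    rw [← hcard]
    exact_mod_cast hcard0
  obtain ⟨A, hA0, hAb, hAs⟩ := siegel_gen V cj hcj hconj hM1
    (by
      intro K p
      calc ∑ μ, ‖V K p μ‖ ≤ ∑ _μ : Mo P N, B := Finset.sum_le_sum fun μ _ => hVn K p μ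
        _ = ((∏ v, (N v * (P v).d) : ℕ) : ℝ) * B := by
            rw [Finset.sum_const, Finset.card_univ, nsmul_eq_mul, hcard]) hr
    (by
      rw [Fintype.card_coe, Fintype.card_coe, hcard]
      exact hcount) hcard0
  refine ⟨A, hA0, hAb, ?_⟩
  intro p hp k hk
  have hmem : (fun v => k v / (P v).C.pd.e) ∈ cells ℓ TT := (mem_cells hℓ).2 hk
  have hsmall : ∀ p ∈ PP, ‖Vm P D N A p (fun v => k v / (P v).C.pd.e)‖ < 1 := by
    intro p hp
    have h1 := hAs ⟨_, hmem⟩ ⟨p, hp⟩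
    have h2 : Vm P D N A p (fun v => k v / (P v).C.pd.e) =
        ∑ μ, (A μ : ℂ) * V ⟨_, hmem⟩ ⟨p, hp⟩ μ := by
      unfold Vm Bm
      rw [Finset.sum_comm]
      refine Finset.sum_congr rfl fun μ _ => ?_
      rw [← Finset.mul_sum]
    rw [h2]
    exact h1
  have h3 := cell_zero_m P PP hst D N A _ hsmall p hp
    (fun v => ⟨k v % (P v).C.pd.e, Nat.mod_lt _ (P v).C.pd.e_pos⟩)
  have h4 : (fun v => (P v).C.pd.e * (k v / (P v).C.pd.e) + k v % (P v).C.pd.e) = k := by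
    funext v
    exact Nat.div_add_mod _ _
  simp only [h4] at h3
  exact h3

end Pool.Agent.H98.MR
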