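import Pool.Agent.H98.MR.RAB
import Pool.Agent.H98.MR.RZF
import Pool.Agent.H98.MR.RNZ

/-! # [H98 MR RAN] The auxiliary polynomial in the coordinates `x_1, ..., x_m`, relaxed curves

Copy `Pool/Agent/H97/NW/AUXN.lean` (namespace `Pool.Agent.H98.MR`, open `Pool.Agent.H97.NW`) and change: `η` from `auxB_r`; `τ = η/(5 Ev κ n)` (`1 ≤ Ev κ n`). For `δ > 0`:
`δ1 = min (η/8) (δ / (4 n^m))`; `c1, K1` from `auxB_r` for `δ1`, `c2, K2` from `zero_r`; `K = max (max K1 K2) (max (n² + n + 2) (4 n^m m n κ / δ))`, `c` at least `c1`, `c2`,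
`4 CC / δ`. In `auxn_log` the term `log b_v ≤ X` is replaced by `log b_v ≤ κ ell_v ≤ κ Y / K` (`Rc.log_b`): state it with an extra real `w` such that
`∀ v, log (b v) ≤ w` and `c log 2 ≤ ell v` instead of `h1`, conclusion with the additional term `n^m (m (n w))` and `m (n (2 n))` instead of
`m (n (2 n + 1))`; `n^m m n κ Y / K ≤ δ/4 Y`. `det_ne_r`, `det_idx_r` with `hκ v = ((hP v).kap _).1`. The degrees as before. -/

namespace Pool.Agent.H98.MR

open Finset Polynomial Pool.Agent.H72.ES Pool.Agent.H87.SA2 Pool.Agent.H8.AW Pool.Agent.H52.AC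
  Pool.Agent.H97.NW H4AR

private theorem auxn_deg {m : ℕ} {ι : Type} [Fintype ι] [DecidableEq ι]
    (M : Matrix ι ι (MvPolynomial (Fin m) ℤ)) (j : Fin m) (D : ℕ)
    (h : ∀ a b, (M a b).degreeOf j ≤ D) : M.det.degreeOf j ≤ Fintype.card ι * D := by
  have e := Fintype.equivFin ι
  rw [← Matrix.det_reindex_self e M]
  exact degreeOf_det_le _ j D (fun a b => h _ _)

private theorem auxn_l1 {m : ℕ} {ι : Type} [Fintype ι] [DecidableEq ι]
    (M : Matrix ι ι (MvPolynomial (Fin m) ℤ)) (B : ℝ) (hB : 0 ≤ B)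
    (h : ∀ i j, l1 (M i j) ≤ B) : l1 M.det ≤ ((Fintype.card ι).factorial : ℝ) * B ^ (Fintype.card ι) := by
  have e := Fintype.equivFin ι
  rw [← Matrix.det_reindex_self e M]
  exact l1_det_le _ B hB (fun a b => h _ _)

private theorem auxn_card {m n : ℕ} (P : Fin m → Ptd n) :
    Fintype.card (∀ v, Fin (P v).d) = ∏ v, (P v).d := by
  simp [Fintype.card_pi]

private theorem auxn_sle {m n : ℕ} (P : Fin m → Ptd n) : ∏ v, (P v).d ≤ n ^ m := by
  calc ∏ v, (P v).d ≤ ∏ _v : Fin m, n := Finset.prod_le_prod' (fun v _ => (P v).C.dn)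
    _ = n ^ m := by simp

private theorem auxn_fact (s : ℕ) : Real.log (s.factorial : ℝ) ≤ (s : ℝ) * s := by
  have h1 : (s.factorial : ℝ) ≤ (s : ℝ) ^ s := by exact_mod_cast Nat.factorial_le_pow s
  have h0 : (0 : ℝ) < s.factorial := by exact_mod_cast Nat.factorial_pos s
  calc Real.log (s.factorial : ℝ) ≤ Real.log ((s : ℝ) ^ s) := Real.log_le_log h0 h1
    _ = s * Real.log s := Real.log_pow _ _
    _ ≤ (s : ℝ) * s := mul_le_mul_of_nonneg_left (Real.log_le_self (Nat.cast_nonneg s)) (Nat.cast_nonneg s)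

private theorem auxn_log (m n c s : ℕ) (hm : 1 ≤ m) (hn : 1 ≤ n) (hc : 1 ≤ c) (hs : s ≤ n ^ m) (δ1 Y L : ℝ)
    (hδ : 0 ≤ δ1) (b N d : Fin m → ℕ) (ell : Fin m → ℝ) (hb : ∀ v, 2 ≤ b v) (hN : ∀ v, 1 ≤ N v)
    (hd : ∀ v, 1 ≤ d v) (hdn : ∀ v, d v ≤ n) (w : ℝ) (hw0 : 0 ≤ w) (hw : ∀ v, Real.log (b v) ≤ w)
    (hell : ∀ v, (c : ℝ) * Real.log 2 ≤ ell v)
    (h2 : ∀ v, ell v ≤ Y) (h3 : ∀ v, (N v : ℝ) * ell v ≤ Y) (hL0 : 0 ≤ L)
    (hL : L ≤ (s.factorial : ℝ) * (((∏ v, (N v * d v) : ℕ) : ℝ) * (Real.exp (δ1 * Y) *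
      ∏ v, (((n + 1) ^ 2 * b v : ℕ) : ℝ) ^ n)) ^ s) :
    Real.log L ≤ (n : ℝ) ^ m * (δ1 * Y) + (n : ℝ) ^ m * (m * (n * w)) + ((n : ℝ) ^ (2 * m) +
      (n : ℝ) ^ m * (m * n + m * (n * (2 * n)))) * (Y / (c * Real.log 2)) := by
  have hl2 : 0 < Real.log 2 := Real.log_pos (by norm_num)
  have hl1 : Real.log 2 ≤ 1 := by
    have := Real.log_two_lt_d9
    linarith
  have hcR : (1 : ℝ) ≤ c := by exact_mod_cast hc
  have hnR : (1 : ℝ) ≤ n := by exact_mod_cast hn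
  have hcl : 0 < (c : ℝ) * Real.log 2 := by positivity
  obtain ⟨X, hX⟩ : ∃ X : ℝ, X = Y / (c * Real.log 2) := ⟨_, rfl⟩
  have hXY : X * (c * Real.log 2) = Y := by
    rw [hX]
    field_simp
  have hX1 : 1 ≤ X := by
    have h := (hell ⟨0, hm⟩).trans (h2 ⟨0, hm⟩)
    rw [← hXY] at h
    by_contra hlt
    push Not at hlt
    nlinarith
  have hY0 : 0 < Y := by
    rw [← hXY]
    positivity
  have hNX : ∀ v, (N v : ℝ) ≤ X := by
    intro v
    have h := (mul_le_mul_of_nonneg_left (hell v) (Nat.cast_nonneg (N v))).trans (h3 v)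
    rw [← hXY] at h
    exact le_of_mul_le_mul_right h hcl
  have hδY : 0 ≤ δ1 * Y := by positivity
  rw [← hX]
  rcases hL0.eq_or_lt with h0 | h0
  · rw [← h0, Real.log_zero]
    positivity
  · have hP1 : ∀ v, (0 : ℝ) < ((N v * d v : ℕ) : ℝ) := fun v => by
      exact_mod_cast Nat.mul_pos (hN v) (hd v)
    have hQ1 : ∀ v, (0 : ℝ) < (((n + 1) ^ 2 * b v : ℕ) : ℝ) ^ n := fun v => by
      have : 0 < (n + 1) ^ 2 * b v := Nat.mul_pos (by positivity) (by have := hb v; omega)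
      have h' : (0 : ℝ) < (((n + 1) ^ 2 * b v : ℕ) : ℝ) := by exact_mod_cast this
      positivity
    have hP : (0 : ℝ) < ((∏ v, (N v * d v) : ℕ) : ℝ) := by
      rw [Nat.cast_prod]
      exact Finset.prod_pos fun v _ => hP1 v
    have hQ : (0 : ℝ) < ∏ v, (((n + 1) ^ 2 * b v : ℕ) : ℝ) ^ n := Finset.prod_pos fun v _ => hQ1 v
    have hE : (0 : ℝ) < Real.exp (δ1 * Y) := Real.exp_pos _
    have hfac : (0 : ℝ) < s.factorial := by exact_mod_cast Nat.factorial_pos s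
    have e1 : Real.log ((∏ v, (N v * d v) : ℕ) : ℝ) ≤ m * n * X := by
      rw [Nat.cast_prod, Real.log_prod (fun v _ => (hP1 v).ne')]
      calc ∑ v, Real.log ((N v * d v : ℕ) : ℝ) ≤ ∑ _v : Fin m, (n : ℝ) * X := by
            refine Finset.sum_le_sum fun v _ => ?_
            refine (Real.log_le_self (hP1 v).le).trans ?_
            rw [Nat.cast_mul, mul_comm]
            have hdv : (d v : ℝ) ≤ n := by exact_mod_cast hdn v
            exact mul_le_mul hdv (hNX v) (Nat.cast_nonneg _) (by positivity)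
        _ = m * n * X := by
            rw [Finset.sum_const, Finset.card_univ, Fintype.card_fin, nsmul_eq_mul]
            ring
    have e2 : Real.log (∏ v, (((n + 1) ^ 2 * b v : ℕ) : ℝ) ^ n) ≤ m * (n * (2 * n * X + w)) := by
      rw [Real.log_prod (fun v _ => (hQ1 v).ne')]
      calc ∑ v, Real.log ((((n + 1) ^ 2 * b v : ℕ) : ℝ) ^ n) ≤ ∑ _v : Fin m, (n * (2 * n * X + w)) := by
            refine Finset.sum_le_sum fun v _ => ?_
            rw [Real.log_pow]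
            have hbv : (0 : ℝ) < b v := by
              have := hb v
              exact_mod_cast (by omega : 0 < b v)
            have h5 : Real.log (((n + 1) ^ 2 * b v : ℕ) : ℝ) ≤ 2 * n * X + w := by
              push_cast
              rw [Real.log_mul (by positivity) hbv.ne', Real.log_pow]
              have h6 : Real.log ((n : ℝ) + 1) ≤ n := by
                have := Real.log_le_sub_one_of_pos (show (0 : ℝ) < (n : ℝ) + 1 by positivity)
                linarith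
              have h7 := hw v
              push_cast
              nlinarith
            exact mul_le_mul_of_nonneg_left h5 (by positivity)
        _ = m * (n * (2 * n * X + w)) := by
            rw [Finset.sum_const, Finset.card_univ, Fintype.card_fin, nsmul_eq_mul]
    have e3 : Real.log L ≤ s * s + s * (m * n * X + (δ1 * Y + m * (n * (2 * n * X + w)))) := by
      refine (Real.log_le_log h0 hL).trans ?_
      rw [Real.log_mul hfac.ne' (by positivity), Real.log_pow, Real.log_mul hP.ne' (by positivity),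
        Real.log_mul hE.ne' hQ.ne', Real.log_exp]
      apply add_le_add (auxn_fact s)
      apply mul_le_mul_of_nonneg_left _ (Nat.cast_nonneg s)
      linarith
    have hsR : (s : ℝ) ≤ (n : ℝ) ^ m := by exact_mod_cast hs
    have hZ : 0 ≤ m * n * X + (δ1 * Y + m * (n * (2 * n * X + w))) := by positivity
    have e4 : (s : ℝ) * s ≤ (n : ℝ) ^ (2 * m) * X := by
      have : (n : ℝ) ^ (2 * m) = (n : ℝ) ^ m * (n : ℝ) ^ m := by rw [two_mul, pow_add]
      rw [this]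
      have h8 : (s : ℝ) * s ≤ (n : ℝ) ^ m * (n : ℝ) ^ m :=
        mul_le_mul hsR hsR (Nat.cast_nonneg _) (by positivity)
      have h9 : (0 : ℝ) ≤ (n : ℝ) ^ m * (n : ℝ) ^ m := by positivity
      nlinarith
    have e5 := mul_le_mul_of_nonneg_right hsR hZ
    calc Real.log L ≤ s * s + s * (m * n * X + (δ1 * Y + m * (n * (2 * n * X + w)))) := e3
      _ ≤ (n : ℝ) ^ (2 * m) * X + (n : ℝ) ^ m * (m * n * X + (δ1 * Y + m * (n * (2 * n * X + w)))) :=
          add_le_add e4 e5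
      _ = _ := by ring

/-- the choice of c -/
private theorem auxn_c (C δ Y : ℝ) (c : ℕ) (hδ : 0 < δ) (hC : 0 ≤ C) (hY : 0 ≤ Y)
    (hc : 4 * C / δ ≤ c) (hc1 : 1 ≤ c) : C * (Y / (c * Real.log 2)) ≤ δ / 2 * Y := by
  have hl2 : 1 / 2 ≤ Real.log 2 := by
    have := Real.log_two_gt_d9
    linarith
  have hcR : (1 : ℝ) ≤ c := by exact_mod_cast hc1
  have hcl : 0 < (c : ℝ) * Real.log 2 := by positivity
  have h1 : 4 * C ≤ c * δ := by
    rw [div_le_iff₀ hδ] at hc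
    exact hc
  have h2 : C * (Y / (c * Real.log 2)) = (C * Y) / (c * Real.log 2) := by ring
  rw [h2, div_le_iff₀ hcl]
  have h3 : C ≤ δ / 2 * (c * Real.log 2) := by nlinarith
  calc C * Y ≤ (δ / 2 * (c * Real.log 2)) * Y := mul_le_mul_of_nonneg_right h3 hY
    _ = δ / 2 * Y * (c * Real.log 2) := by ring

theorem aux_norm_r (m n κ : ℕ) (hm : 1 ≤ m) (hn : 4 ≤ n) (γ : ℝ) (hγ : 0 < γ) : ∃ τ : ℝ,
    0 < τ ∧ ∀ δ : ℝ, 0 < δ → ∃ (c : ℕ) (K1 : ℝ), cR n ≤ c ∧ 1 ≤ K1 ∧ ∀ (P : Fin m → Ptd n)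
      (PP : Finset (∀ v, Fin (P v).d)), Stb P PP → (fun v => (P v).i) ∈ PP →
      (1 + γ) * ((m : ℝ) ^ m * PP.card) ≤ (m.factorial : ℝ) * ∏ v, ((P v).d : ℝ) →
      ∀ ρ : Fin m → ℝ, (∀ v, Rc κ c (P v) (ρ v)) → ∀ Y : ℝ, (∀ v, K1 * (P v).ell ≤ Y) →
      ∃ N : MvPolynomial (Fin m) ℤ, N ≠ 0 ∧
        (∀ v, (N.degreeOf v : ℝ) * (P v).ell ≤ 2 * (n : ℝ) ^ m * Y) ∧
        Real.log (l1 N) ≤ δ * Y ∧
        ∀ e : Fin m →₀ ℕ, ∑ v, (P v).ell * (e v : ℝ) < τ * Y →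
          (sh (fun v => (P v).x) N).coeff e = 0 := by
  obtain ⟨η, hη, hη1, hB⟩ := auxB_r m n κ hm (by omega) γ hγ
  have hnR : (4 : ℝ) ≤ n := by exact_mod_cast hn
  have hmR : (1 : ℝ) ≤ m := by exact_mod_cast hm
  have hEv : (0 : ℝ) < (Ev κ n : ℕ) := by
    have h1 : 0 < Ev κ n := by
      unfold Ev
      omega
    exact_mod_cast h1
  refine ⟨η / (5 * (Ev κ n : ℕ)), by positivity, ?_⟩
  intro δ hδ
  obtain ⟨c2, K2, hc2, hK2, hz⟩ := zero_r m n κ hm (by omega) η hη hη1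
  have hnm : (1 : ℝ) ≤ (n : ℝ) ^ m := one_le_pow₀ (by linarith)
  obtain ⟨δ1, hδ1⟩ : ∃ δ1 : ℝ, δ1 = min (η / 8) (δ / (4 * (n : ℝ) ^ m)) := ⟨_, rfl⟩
  have hδ0 : 0 < δ1 := by
    rw [hδ1]
    exact lt_min (by positivity) (by positivity)
  have hδa : δ1 ≤ η / 8 := by rw [hδ1]; exact min_le_left _ _
  have hδb : (n : ℝ) ^ m * δ1 ≤ δ / 4 := by
    have h1 : δ1 ≤ δ / (4 * (n : ℝ) ^ m) := by rw [hδ1]; exact min_le_right _ _
    have h2 := mul_le_mul_of_nonneg_left h1 (by linarith : (0 : ℝ) ≤ (n : ℝ) ^ m)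
    have h3 : (n : ℝ) ^ m * (δ / (4 * (n : ℝ) ^ m)) = δ / 4 := by
      field_simp
    linarith
  obtain ⟨c1, K1, hc11, hK1, hc1⟩ := hB δ1 hδ0
  obtain ⟨CC, hCC⟩ : ∃ CC : ℝ, CC = (n : ℝ) ^ (2 * m) + (n : ℝ) ^ m * (m * n + m * (n * (2 * n))) :=
    ⟨_, rfl⟩
  have hCC0 : 0 ≤ CC := by
    rw [hCC]
    positivity
  refine ⟨c1 + c2 + ⌈4 * CC / δ⌉₊ + 1,
    max (max K1 K2) (max ((n : ℝ) ^ 2 + n + 2) (4 * ((n : ℝ) ^ m * (m * n)) * κ / δ)),
    by omega, hK1.trans ((le_max_left _ _).trans (le_max_left _ _)), ?_⟩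
  intro P PP hStb hnear hcard ρ hThr Y hY
  have hT1 : ∀ v, Rc κ c1 (P v) (ρ v) := fun v => (hThr v).mono (by omega)
  have hT2 : ∀ v, Rc κ c2 (P v) (ρ v) := fun v => (hThr v).mono (by omega)
  have hκ : ∀ v, (P v).kap ≠ 0 := fun v => ((hThr v).kap (by omega)).1
  have hge : ∀ v, ((c1 + c2 + ⌈4 * CC / δ⌉₊ + 1 : ℕ) : ℝ) * Real.log 2 ≤ (P v).ell := fun v =>
    (hThr v).ell_ge.2
  have hl2 : 0 < Real.log 2 := Real.log_pos (by norm_num)
  have hell0 : ∀ v, 0 < (P v).ell := by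
    intro v
    refine lt_of_lt_of_le ?_ (hge v)
    push_cast
    positivity
  have hK1Y : ∀ v, K1 * (P v).ell ≤ Y := fun v =>
    (mul_le_mul_of_nonneg_right ((le_max_left _ _).trans (le_max_left _ _)) (hell0 v).le).trans (hY v)
  have hK2Y : ∀ v, K2 * (P v).ell ≤ Y := fun v =>
    (mul_le_mul_of_nonneg_right ((le_max_right _ _).trans (le_max_left _ _)) (hell0 v).le).trans (hY v)
  have hK3Y : ∀ v, ((n : ℝ) ^ 2 + n + 2) * (P v).ell ≤ Y := fun v =>
    (mul_le_mul_of_nonneg_right ((le_max_left _ _).trans (le_max_right _ _)) (hell0 v).le).trans (hY v)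
  have hK4Y : ∀ v, (4 * ((n : ℝ) ^ m * (m * n)) * κ / δ) * (P v).ell ≤ Y := fun v =>
    (mul_le_mul_of_nonneg_right ((le_max_right _ _).trans (le_max_right _ _)) (hell0 v).le).trans (hY v)
  have hellY : ∀ v, (P v).ell ≤ Y := fun v => by
    have h1 := hK1Y v
    have h2 := hell0 v
    nlinarith
  have hY0 : 0 < Y := lt_of_lt_of_le (hell0 ⟨0, hm⟩) (hellY ⟨0, hm⟩)
  have hden : (0 : ℝ) < 4 * ((n : ℝ) ^ m * (m * n)) := by positivity
  have hlb : ∀ v, Real.log (P v).b ≤ Y * (δ / (4 * ((n : ℝ) ^ m * (m * n)))) := by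
    intro v
    refine (hThr v).log_b.trans ?_
    have h1 := hK4Y v
    have h2 : (4 * ((n : ℝ) ^ m * (m * n)) * κ / δ) * (P v).ell =
        (4 * ((n : ℝ) ^ m * (m * n))) * (κ * (P v).ell) / δ := by ring
    rw [h2, div_le_iff₀ hδ] at h1
    have h3 : Y * (δ / (4 * ((n : ℝ) ^ m * (m * n)))) = (Y * δ) / (4 * ((n : ℝ) ^ m * (m * n))) := by
      ring
    rw [h3, le_div_iff₀ hden]
    linarith
  obtain ⟨hNf, A, hA0, hA, hvan⟩ := hc1 P PP hStb hcard ρ hT1 Y hK1Y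
  have hA8 : ∀ μ, |(A μ : ℝ)| ≤ Real.exp (η / 8 * Y) := fun μ =>
    (hA μ).trans (Real.exp_le_exp.2 (mul_le_mul_of_nonneg_right hδa hY0.le))
  have hLm := hz P ρ hT2 Y hK2Y hNf A hA8 (hvan _ hnear)
  have hs := auxn_card P
  have hsle := auxn_sle P
  refine ⟨(MG P (Nf P Y) A).det, det_ne_r P hκ _ A hA0, ?_, ?_, ?_⟩
  · intro v
    have h1 := auxn_deg (MG P (Nf P Y) A) v (Nf P Y v + n * n) (fun i j => MG_deg P _ A i j v)
    rw [hs] at h1
    have h2 : (MG P (Nf P Y) A).det.degreeOf v ≤ n ^ m * (Nf P Y v + n * n) :=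
      h1.trans (Nat.mul_le_mul_right _ hsle)
    have h3 : ((MG P (Nf P Y) A).det.degreeOf v : ℝ) ≤ (n : ℝ) ^ m * ((Nf P Y v : ℝ) + n * n) := by
      exact_mod_cast h2
    have h4 : (Nf P Y v : ℝ) * (P v).ell ≤ Y := by
      have h5 : Nf P Y v ≤ Df P Y v := by
        unfold Nf
        have := (P v).C.d1
        omega
      have h6 : (Df P Y v : ℝ) ≤ Y / (P v).ell := Nat.floor_le (by have := hell0 v; positivity)
      have h7 : (Nf P Y v : ℝ) ≤ Y / (P v).ell := le_trans (by exact_mod_cast h5) h6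
      rwa [le_div_iff₀ (hell0 v)] at h7
    have h8 : ((n : ℝ) * n) * (P v).ell ≤ Y := by
      have h9 := hK3Y v
      have h10 := hell0 v
      nlinarith
    have h11 : 0 ≤ (n : ℝ) ^ m := by positivity
    calc ((MG P (Nf P Y) A).det.degreeOf v : ℝ) * (P v).ell
        ≤ ((n : ℝ) ^ m * ((Nf P Y v : ℝ) + n * n)) * (P v).ell :=
          mul_le_mul_of_nonneg_right h3 (hell0 v).le
      _ = (n : ℝ) ^ m * ((Nf P Y v : ℝ) * (P v).ell + ((n : ℝ) * n) * (P v).ell) := by ring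
      _ ≤ (n : ℝ) ^ m * (Y + Y) := by gcongr
      _ = 2 * (n : ℝ) ^ m * Y := by ring
  · have hbig := auxn_l1 (MG P (Nf P Y) A)
      (((∏ v, (Nf P Y v * (P v).d) : ℕ) : ℝ) * (Real.exp (δ1 * Y) *
      ∏ v, (((n + 1) ^ 2 * (P v).b : ℕ) : ℝ) ^ n)) (by positivity) (fun i j => MG_l1 P _ A hA i j)
    rw [hs] at hbig
    have hfin := auxn_log m n (c1 + c2 + ⌈4 * CC / δ⌉₊ + 1) (∏ v, (P v).d) hm (by omega) (by omega) hsle
      δ1 Y _ hδ0.le (fun v => (P v).b) (Nf P Y) (fun v => (P v).d) (fun v => (P v).ell)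
      (fun v => (P v).C.b2) hNf (fun v => (P v).C.d1) (fun v => (P v).C.dn)
      (Y * (δ / (4 * ((n : ℝ) ^ m * (m * n))))) (by positivity) hlb hge hellY ?_ (l1_nonneg _) hbig
    · rw [← hCC] at hfin
      refine hfin.trans ?_
      have h1 := auxn_c CC δ Y (c1 + c2 + ⌈4 * CC / δ⌉₊ + 1) hδ hCC0 hY0.le ?_ (by omega)
      · have h2 : (n : ℝ) ^ m * (δ1 * Y) ≤ δ / 4 * Y := by
          rw [← mul_assoc]
          exact mul_le_mul_of_nonneg_right hδb hY0.le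
        have h3 : (n : ℝ) ^ m * (m * (n * (Y * (δ / (4 * ((n : ℝ) ^ m * (m * n))))))) = δ / 4 * Y := by
          field_simp
        rw [h3]
        nlinarith
      · have h3 := Nat.le_ceil (4 * CC / δ)
        push_cast
        have h4 : (0 : ℝ) ≤ c1 := Nat.cast_nonneg _
        have h5 : (0 : ℝ) ≤ c2 := Nat.cast_nonneg _
        linarith
    · intro v
      have h5 : Nf P Y v ≤ Df P Y v := by
        unfold Nf
        have := (P v).C.d1
        omega
      have h6 : (Df P Y v : ℝ) ≤ Y / (P v).ell := Nat.floor_le (by have := hell0 v; positivity)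
      have h7 : (Nf P Y v : ℝ) ≤ Y / (P v).ell := le_trans (by exact_mod_cast h5) h6
      rwa [le_div_iff₀ (hell0 v)] at h7
  · intro e he
    exact det_idx_r P hκ _ A (fun v => (hell0 v).le) hLm e he

end Pool.Agent.H98.MR
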