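import Pool.Agent.H98.MR.RBA

/-! # [H98 MR RTA] The tail of the expansion, relaxed curves

Copy `Pool/Agent/H97/NW/TAIL.lean` (namespace `Pool.Agent.H98.MR`, open `Pool.Agent.H97.NW`; the private lemma `tail_one` is unchanged) and change:
`Q v = 2 q_v ρ_v` (`q ≥ 1`, `ρ ≥ 2`), `V v = 2 |x_v|^κ ≥ 1` (`Rc.x1`), `hcle : ‖c μ v k‖ ≤ V v ^ n * Q v ^ k` from `uu_r` (`U = |x|^κ`, `b < d ≤ n`, `V ≥ 1`),
and `Q v ^ n` becomes `V v ^ n` everywhere (`hterm`, `hsum`, `hBm`, `K0`, `hk`). -/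

namespace Pool.Agent.H98.MR

open Finset Polynomial Pool.Agent.H72.ES Pool.Agent.H87.SA2 Pool.Agent.H8.AW Pool.Agent.H52.AC
  Pool.Agent.H97.NW

variable {m n κ c : ℕ}

private theorem tail_one {e : ℕ} {s l δ : ℝ} (hs0 : 0 ≤ s) (hs : s ≤ 1 / 2) (he : 1 ≤ e)
    (h2 : s ^ e ≤ Real.exp (-(1 - δ) * l)) (h3 : Real.exp (-δ * l) ≤ 1 / 2) (L : ℕ) :
    ∑ k ∈ range L, s ^ k * Real.exp ((1 - 2 * δ) * (l * ((k / e : ℕ) : ℝ))) ≤ 4 := by
  have h4 : ∀ k ∈ range L, s ^ k * Real.exp ((1 - 2 * δ) * (l * ((k / e : ℕ) : ℝ))) ≤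
      (1 / 2 : ℝ) ^ (k / e) * (1 / 2 : ℝ) ^ (k % e) := by
    intro k _
    have e1 : s ^ k = (s ^ e) ^ (k / e) * s ^ (k % e) := by
      rw [← pow_mul, ← pow_add, Nat.div_add_mod]
    have e2 : (s ^ e) ^ (k / e) ≤ Real.exp (-(1 - δ) * l) ^ (k / e) :=
      pow_le_pow_left₀ (by positivity) h2 _
    have e3 : s ^ (k % e) ≤ (1 / 2 : ℝ) ^ (k % e) := pow_le_pow_left₀ hs0 hs _
    have e4 : Real.exp (-(1 - δ) * l) ^ (k / e) *
        Real.exp ((1 - 2 * δ) * (l * ((k / e : ℕ) : ℝ))) = Real.exp (-δ * l) ^ (k / e) := by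
      rw [← Real.exp_nat_mul, ← Real.exp_nat_mul, ← Real.exp_add]
      congr 1
      ring
    have e5 : Real.exp (-δ * l) ^ (k / e) ≤ (1 / 2 : ℝ) ^ (k / e) :=
      pow_le_pow_left₀ (Real.exp_pos _).le h3 _
    calc s ^ k * Real.exp ((1 - 2 * δ) * (l * ((k / e : ℕ) : ℝ)))
        = ((s ^ e) ^ (k / e) * s ^ (k % e)) * Real.exp ((1 - 2 * δ) * (l * ((k / e : ℕ) : ℝ))) := by
          rw [← e1]
      _ ≤ (Real.exp (-(1 - δ) * l) ^ (k / e) * (1 / 2 : ℝ) ^ (k % e)) *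
            Real.exp ((1 - 2 * δ) * (l * ((k / e : ℕ) : ℝ))) := by
          apply mul_le_mul_of_nonneg_right _ (Real.exp_pos _).le
          exact mul_le_mul e2 e3 (by positivity) (by positivity)
      _ = Real.exp (-δ * l) ^ (k / e) * (1 / 2 : ℝ) ^ (k % e) := by
          rw [← e4]; ring
      _ ≤ _ := mul_le_mul_of_nonneg_right e5 (by positivity)
  refine (sum_le_sum h4).trans ?_
  set φ : ℕ → ℕ × ℕ := fun k => (k / e, k % e) with hφ
  set g : ℕ × ℕ → ℝ := fun p => (1 / 2 : ℝ) ^ p.1 * (1 / 2 : ℝ) ^ p.2 with hg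
  have hinj : Set.InjOn φ (range L : Finset ℕ) := by
    intro a _ b _ hab
    simp only [hφ, Prod.mk.injEq] at hab
    rw [← Nat.div_add_mod a e, ← Nat.div_add_mod b e, hab.1, hab.2]
  have e1 : ∑ k ∈ range L, (1 / 2 : ℝ) ^ (k / e) * (1 / 2 : ℝ) ^ (k % e) =
      ∑ p ∈ (range L).image φ, g p := by
    rw [sum_image hinj]
  rw [e1]
  have hsub : (range L).image φ ⊆ range L ×ˢ range e := by
    intro p hp
    obtain ⟨k, hk, rfl⟩ := mem_image.1 hp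
    rw [mem_range] at hk
    rw [mem_product, mem_range, mem_range]
    exact ⟨(Nat.div_le_self k e).trans_lt hk, Nat.mod_lt _ (by omega)⟩
  refine (sum_le_sum_of_subset_of_nonneg hsub (fun p _ _ => by positivity)).trans ?_
  rw [sum_product]
  simp only [hg]
  have e2 : ∀ x ∈ range L, ∑ y ∈ range e, (1 / 2 : ℝ) ^ x * (1 / 2 : ℝ) ^ y =
      (1 / 2 : ℝ) ^ x * ∑ y ∈ range e, (1 / 2 : ℝ) ^ y := fun x _ => by rw [mul_sum]
  rw [sum_congr rfl e2, ← sum_mul]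
  have e3 := sum_geometric_two_le L
  have e4 := sum_geometric_two_le e
  have e5 : 0 ≤ ∑ y ∈ range e, (1 / 2 : ℝ) ^ y := sum_nonneg fun y _ => by positivity
  calc (∑ x ∈ range L, (1 / 2 : ℝ) ^ x) * ∑ y ∈ range e, (1 / 2 : ℝ) ^ y ≤ 2 * 2 :=
        mul_le_mul e3 e4 e5 (by norm_num)
    _ = 4 := by norm_num

theorem tail_r (P : Fin m → Ptd n) (ρ : Fin m → ℝ) (hP : ∀ v, Rc κ c (P v) (ρ v)) (D N : Fin m → ℕ)
    (A : Mo P N → ℤ) (ℓ : Fin m → ℝ)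
    (hℓ : ∀ v, 0 < ℓ v) {TT Z δ : ℝ} (hTT : 0 ≤ TT) (hδ : 0 < δ) (hδ2 : δ < 1 / 2)
    (hvan : ∀ k : Fin m → ℕ, ∑ v, ℓ v * ((k v / (P v).C.pd.e : ℕ) : ℝ) < TT →
      Bm P D N A (fun v => (P v).i) k = 0)
    (hA : ∀ μ, |(A μ : ℝ)| ≤ Z) (T : Fin m → ℂ)
    (h1 : ∀ v, 2 * (P v).C.pd.q * ρ v * ‖T v‖ ≤ 1 / 2)
    (h2 : ∀ v, (2 * (P v).C.pd.q * ρ v * ‖T v‖) ^ (P v).C.pd.e ≤ Real.exp (-(1 - δ) * ℓ v))
    (h3 : ∀ v, Real.exp (-δ * ℓ v) ≤ 1 / 2) :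
    ‖∑ μ : Mo P N, (A μ : ℂ) * ∏ v, evz (T v)
        (uu (P v).C.pd.q (P v).C.pd.e ((P v).C.pd.x (P v).i) (D v) (μ v).1 (μ v).2)‖ ≤
      ((∏ v, (N v * (P v).d) : ℕ) : ℝ) * Z * (∏ v, (2 * |((P v).x : ℝ)| ^ κ) ^ n) *
        4 ^ m * Real.exp (-(1 - 2 * δ) * TT) := by
  classical
  set Q : Fin m → ℝ := fun v => 2 * (P v).C.pd.q * ρ v with hQ
  set V : Fin m → ℝ := fun v => 2 * |((P v).x : ℝ)| ^ κ with hV
  have hq1 : ∀ v, (1 : ℝ) ≤ (P v).C.pd.q := fun v => by exact_mod_cast (P v).C.pd.q_pos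
  have hR2 : ∀ v, 2 ≤ ρ v := fun v => (hP v).ρ2
  have hU1 : ∀ v, (1 : ℝ) ≤ |((P v).x : ℝ)| ^ κ := fun v => one_le_pow₀ (hP v).x1
  have hV1 : ∀ v, 1 ≤ V v := by
    intro v
    have a1 := hU1 v
    simp only [hV]
    linarith
  have hV0 : ∀ v, 0 ≤ V v := fun v => by linarith [hV1 v]
  have hQ1 : ∀ v, 1 ≤ Q v := by
    intro v
    have a1 := hq1 v
    have a2 := hR2 v
    simp only [hQ]
    nlinarith
  have hQ0 : ∀ v, 0 ≤ Q v := fun v => by linarith [hQ1 v]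
  set s : Fin m → ℝ := fun v => Q v * ‖T v‖ with hs
  have hs0 : ∀ v, 0 ≤ s v := fun v => mul_nonneg (hQ0 v) (norm_nonneg _)
  have hs1 : ∀ v, s v ≤ 1 / 2 := h1
  set c : Mo P N → Fin m → ℕ → ℂ := fun μ v k => PowerSeries.coeff k
    (uu (P v).C.pd.q (P v).C.pd.e ((P v).C.pd.x (P v).i) (D v) (μ v).1 (μ v).2) with hc
  have hcle : ∀ μ v k, ‖c μ v k‖ ≤ V v ^ n * Q v ^ k := by
    intro μ v k
    have a1 := uu_r (e := (P v).C.pd.e) (P v).C.pd.q_pos (hU1 v) (by linarith [hR2 v] : (1 : ℝ) ≤ ρ v)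
      ((hP v).gr (P v).i) (D v) (μ v).1 (μ v).2 k
    refine a1.trans ?_
    apply mul_le_mul_of_nonneg_right _ (pow_nonneg (hQ0 v) _)
    apply pow_le_pow_right₀ (hV1 v)
    have a2 : ((μ v).2 : ℕ) < (P v).d := (μ v).2.isLt
    have a3 := (P v).C.dn
    omega
  -- the product of the terms
  have hterm : ∀ μ v k, ‖c μ v k * T v ^ k‖ ≤ V v ^ n * s v ^ k := by
    intro μ v k
    rw [norm_mul, norm_pow]
    calc ‖c μ v k‖ * ‖T v‖ ^ k ≤ (V v ^ n * Q v ^ k) * ‖T v‖ ^ k :=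
          mul_le_mul_of_nonneg_right (hcle μ v k) (by positivity)
      _ = V v ^ n * s v ^ k := by simp only [hs]; rw [mul_pow]; ring
  have hsum : ∀ μ v, Summable fun k => c μ v k * T v ^ k := by
    intro μ v
    refine Summable.of_norm_bounded (g := fun k => V v ^ n * s v ^ k) ?_ (hterm μ v)
    exact (summable_geometric_of_lt_one (hs0 v) (by linarith [hs1 v])).mul_left _
  set G : ℕ → ℂ := fun L => ∑ μ : Mo P N, (A μ : ℂ) * ∏ v, ∑ k ∈ range L, c μ v k * T v ^ k with hG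
  have hlim : Filter.Tendsto G Filter.atTop (nhds (∑ μ : Mo P N, (A μ : ℂ) * ∏ v, evz (T v)
        (uu (P v).C.pd.q (P v).C.pd.e ((P v).C.pd.x (P v).i) (D v) (μ v).1 (μ v).2))) := by
    refine tendsto_finsetSum _ fun μ _ => ?_
    refine Filter.Tendsto.const_mul _ ?_
    refine tendsto_finsetProd _ fun v _ => ?_
    exact (hsum μ v).hasSum.tendsto_sum_nat
  refine le_of_tendsto hlim.norm (Filter.Eventually.of_forall fun L => ?_)
  -- the truncation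
  set W : ℝ := ((∏ v, (N v * (P v).d) : ℕ) : ℝ) * Z with hW
  have hcard : (Fintype.card (Mo P N) : ℝ) = ((∏ v, (N v * (P v).d) : ℕ) : ℝ) := by
    congr 1
    rw [Fintype.card_pi]
    refine prod_congr rfl fun v _ => ?_
    rw [Fintype.card_prod, Fintype.card_fin, Fintype.card_fin]
  have hW0 : 0 ≤ W := by
    rw [hW, ← hcard]
    rcases isEmpty_or_nonempty (Mo P N) with h | h
    · rw [Fintype.card_eq_zero]
      simp
    · obtain ⟨μ⟩ := h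
      exact mul_nonneg (Nat.cast_nonneg _) ((abs_nonneg _).trans (hA μ))
  have hGL : G L = ∑ k ∈ Fintype.piFinset (fun _ : Fin m => range L),
      Bm P D N A (fun v => (P v).i) k * ∏ v, T v ^ k v := by
    simp only [hG, Bm]
    have a1 : ∀ μ : Mo P N, (A μ : ℂ) * ∏ v, ∑ k ∈ range L, c μ v k * T v ^ k =
        ∑ k ∈ Fintype.piFinset (fun _ : Fin m => range L),
          (A μ : ℂ) * ((∏ v, c μ v (k v)) * ∏ v, T v ^ k v) := by
      intro μ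
      rw [prod_univ_sum, mul_sum]
      refine sum_congr rfl fun k _ => ?_
      rw [prod_mul_distrib]
    rw [sum_congr rfl fun μ _ => a1 μ, sum_comm]
    refine sum_congr rfl fun k _ => ?_
    rw [sum_mul]
    refine sum_congr rfl fun μ _ => ?_
    ring
  have hBm : ∀ k : Fin m → ℕ, ‖Bm P D N A (fun v => (P v).i) k‖ ≤ W * ∏ v, (V v ^ n * Q v ^ k v) := by
    intro k
    unfold Bm
    refine (norm_sum_le _ _).trans ?_
    have a1 : ∀ μ ∈ (univ : Finset (Mo P N)), ‖(A μ : ℂ) * ∏ v, PowerSeries.coeff (k v)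
        (uu (P v).C.pd.q (P v).C.pd.e ((P v).C.pd.x (P v).i) (D v) (μ v).1 (μ v).2)‖ ≤
        Z * ∏ v, (V v ^ n * Q v ^ k v) := by
      intro μ _
      rw [norm_mul, norm_prod]
      have a2 : ‖((A μ : ℤ) : ℂ)‖ = |(A μ : ℝ)| := by
        rw [Complex.norm_intCast]
      rw [a2]
      apply mul_le_mul (hA μ) _ (prod_nonneg fun v _ => norm_nonneg _) ((abs_nonneg _).trans (hA μ))
      exact prod_le_prod (fun v _ => norm_nonneg _) fun v _ => hcle μ v (k v)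
    refine (sum_le_sum a1).trans ?_
    rw [sum_const, nsmul_eq_mul, card_univ, hcard, hW, mul_assoc]
  set K0 : ℝ := W * (∏ v, V v ^ n) * Real.exp (-(1 - 2 * δ) * TT) with hK0
  have hK00 : 0 ≤ K0 := mul_nonneg (mul_nonneg hW0 (prod_nonneg fun v _ => pow_nonneg (hV0 v) _)) (Real.exp_pos _).le
  have hk : ∀ k ∈ Fintype.piFinset (fun _ : Fin m => range L),
      ‖Bm P D N A (fun v => (P v).i) k * ∏ v, T v ^ k v‖ ≤
        K0 * ∏ v, (s v ^ k v * Real.exp ((1 - 2 * δ) * (ℓ v * ((k v / (P v).C.pd.e : ℕ) : ℝ)))) := by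
    intro k _
    have hR0 : 0 ≤ ∏ v, (s v ^ k v * Real.exp ((1 - 2 * δ) * (ℓ v * ((k v / (P v).C.pd.e : ℕ) : ℝ)))) :=
      prod_nonneg fun v _ => mul_nonneg (pow_nonneg (hs0 v) _) (Real.exp_pos _).le
    by_cases hlt : ∑ v, ℓ v * ((k v / (P v).C.pd.e : ℕ) : ℝ) < TT
    · rw [hvan k hlt, zero_mul, norm_zero]
      exact mul_nonneg hK00 hR0
    · push Not at hlt
      rw [norm_mul, norm_prod]
      have a1 : ∏ v, ‖T v ^ k v‖ = ∏ v, ‖T v‖ ^ k v := prod_congr rfl fun v _ => norm_pow _ _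
      rw [a1]
      have a2 : (∏ v, (V v ^ n * Q v ^ k v)) * ∏ v, ‖T v‖ ^ k v = (∏ v, V v ^ n) * ∏ v, s v ^ k v := by
        rw [← prod_mul_distrib, ← prod_mul_distrib]
        refine prod_congr rfl fun v _ => ?_
        simp only [hs]
        rw [mul_pow]
        ring
      have a3 : ∏ v, (s v ^ k v * Real.exp ((1 - 2 * δ) * (ℓ v * ((k v / (P v).C.pd.e : ℕ) : ℝ)))) =
          (∏ v, s v ^ k v) *
            Real.exp ((1 - 2 * δ) * ∑ v, ℓ v * ((k v / (P v).C.pd.e : ℕ) : ℝ)) := by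
        rw [prod_mul_distrib, mul_sum, Real.exp_sum]
      have a4 : 1 ≤ Real.exp (-(1 - 2 * δ) * TT) *
          Real.exp ((1 - 2 * δ) * ∑ v, ℓ v * ((k v / (P v).C.pd.e : ℕ) : ℝ)) := by
        rw [← Real.exp_add]
        apply Real.one_le_exp
        have := mul_le_mul_of_nonneg_left hlt (by linarith : (0 : ℝ) ≤ 1 - 2 * δ)
        linarith
      have a5 : 0 ≤ W * (∏ v, V v ^ n) * ∏ v, s v ^ k v :=
        mul_nonneg (mul_nonneg hW0 (prod_nonneg fun v _ => pow_nonneg (hV0 v) _))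
          (prod_nonneg fun v _ => pow_nonneg (hs0 v) _)
      calc ‖Bm P D N A (fun v => (P v).i) k‖ * ∏ v, ‖T v‖ ^ k v
          ≤ (W * ∏ v, (V v ^ n * Q v ^ k v)) * ∏ v, ‖T v‖ ^ k v :=
            mul_le_mul_of_nonneg_right (hBm k) (prod_nonneg fun v _ => by positivity)
        _ = W * (∏ v, V v ^ n) * ∏ v, s v ^ k v := by
            rw [mul_assoc, a2, ← mul_assoc]
        _ ≤ (W * (∏ v, V v ^ n) * ∏ v, s v ^ k v) * (Real.exp (-(1 - 2 * δ) * TT) *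
          Real.exp ((1 - 2 * δ) * ∑ v, ℓ v * ((k v / (P v).C.pd.e : ℕ) : ℝ))) :=
            le_mul_of_one_le_right a5 a4
        _ = _ := by rw [a3, hK0]; ring
  rw [hGL]
  refine (norm_sum_le _ _).trans ((sum_le_sum hk).trans ?_)
  rw [← mul_sum]
  have hprod : ∑ k ∈ Fintype.piFinset (fun _ : Fin m => range L),
      ∏ v, (s v ^ k v * Real.exp ((1 - 2 * δ) * (ℓ v * ((k v / (P v).C.pd.e : ℕ) : ℝ)))) =
      ∏ v, ∑ k ∈ range L, s v ^ k * Real.exp ((1 - 2 * δ) * (ℓ v * ((k / (P v).C.pd.e : ℕ) : ℝ))) := by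
    rw [prod_univ_sum]
  rw [hprod]
  have h4 : ∏ v, ∑ k ∈ range L, s v ^ k * Real.exp ((1 - 2 * δ) * (ℓ v * ((k / (P v).C.pd.e : ℕ) : ℝ))) ≤
      4 ^ m := by
    calc ∏ v, ∑ k ∈ range L, s v ^ k * Real.exp ((1 - 2 * δ) * (ℓ v * ((k / (P v).C.pd.e : ℕ) : ℝ)))
        ≤ ∏ _v : Fin m, (4 : ℝ) := by
          refine prod_le_prod (fun v _ => sum_nonneg fun k _ =>
            mul_nonneg (pow_nonneg (hs0 v) _) (Real.exp_pos _).le) fun v _ => ?_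
          exact tail_one (hs0 v) (hs1 v) (P v).C.pd.e_pos (h2 v) (h3 v) L
      _ = 4 ^ m := by simp
  calc K0 * ∏ v, ∑ k ∈ range L, s v ^ k * Real.exp ((1 - 2 * δ) * (ℓ v * ((k / (P v).C.pd.e : ℕ) : ℝ)))
      ≤ K0 * 4 ^ m := mul_le_mul_of_nonneg_left h4 hK00
    _ = _ := by rw [hK0]; ring

end Pool.Agent.H98.MR
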